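import Pool.Agent.U312.RT.Int

/-!
The counterexample.
-/

set_option autoImplicit false
set_option linter.unusedSectionVars false

open Filter Topology Metric Set MeasureTheory

namespace Pool.Agent.U312.RT

lemma VV_cont (M : Set ℂ) (G : ℝ → ℂ) (hG : G ∈ VV M) : Continuous G := by
  induction hG using Submodule.span_induction with
  | mem x h => obtain ⟨μ, _, rfl⟩ := h; unfold ef; fun_prop
  | zero => exact continuous_const
  | add x y _ _ hx hy => exact hx.add hy
  | smul b x _ hx => exact continuous_const.smul hx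

section

variable (S : ℕ → St) (hinv : ∀ k, Inv k (S k)) (hrel : ∀ k, Rel k (S k) (S (k + 1)))
  (hw0 : (S 0).w = fun _ => 0) (hP0 : (S 0).P = nP (fun _ => 1) (cc 0) (EE 0) (S 0).T)

include hrel hP0 in
lemma P_formula (n : ℕ) (z : ℂ) : (S n).P z =
    1 + ∑ j ∈ Finset.range (n + 1), cc j * (z / (z - EE j)) * Complex.exp (z * tt S j) := by
  induction n with
  | zero =>
    rw [hP0, zero_add, Finset.sum_range_one]
    rfl
  | succ n ih =>
    rw [(hrel n).P, Finset.sum_range_succ, ← add_assoc, ← ih]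
    rfl

include hrel hw0 in
lemma w_formula (n : ℕ) (τ : ℝ) : (S n).w τ =
    ∑ k ∈ Finset.range n, sl S k * dd (tt S (k + 1)) τ := by
  induction n with
  | zero => rw [hw0]; simp
  | succ n ih =>
    rw [(hrel n).w, Finset.sum_range_succ, ← ih]
    rfl

include hinv hrel hw0 in
lemma w_le (n : ℕ) (τ : ℝ) (hτ : 0 ≤ τ) : (S n).w τ + (S n).s n * τ ≤ τ / 4 := by
  rw [w_formula S hrel hw0 n τ]
  calc ∑ k ∈ Finset.range n, sl S k * dd (tt S (k + 1)) τ + (S n).s n * τ
      ≤ ∑ k ∈ Finset.range n, sl S k * τ + sl S n * τ := by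
        gcongr with k _
        · exact (sl_pos S hinv k).le
        · exact (dd_le_abs _ _ (tt_pos S hinv _)).trans (abs_of_nonneg hτ).le
        · exact le_rfl
    _ = (∑ k ∈ Finset.range (n + 1), sl S k) * τ := by
        rw [Finset.sum_range_succ, add_mul, Finset.sum_mul]
    _ ≤ 1 / 4 * τ := by
        gcongr
        exact sl_sum_le S hinv (n + 1)
    _ = _ := by ring

include hinv hrel hw0 in
lemma w_pp (n : ℕ) (τ : ℝ) (hτ : 0 ≤ τ) (h : τ < tt S (n + 1) / 2) :
    (S n).w τ + (S n).s n * τ ≤ pp S τ := by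
  rw [w_formula S hrel hw0 n τ]
  have h1 : (S n).s n * τ = sl S n * dd (tt S (n + 1)) τ := by
    rw [dd_small _ _ (tt_pos S hinv _) hτ h]
    rfl
  rw [h1, ← Finset.sum_range_succ]
  exact (pp_summable S hinv τ).sum_le_tsum _ (fun k _ => term_nonneg S hinv k τ)

include hinv hrel hw0 in
lemma w_tendsto (τ : ℝ) : Tendsto (fun n => (S n).w τ + (S n).s n * τ) atTop (𝓝 (pp S τ)) := by
  have h1 : Tendsto (fun n => (S n).w τ) atTop (𝓝 (pp S τ)) := by
    simp only [w_formula S hrel hw0]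
    exact (pp_summable S hinv τ).hasSum.tendsto_sum_nat
  have h2 : Tendsto (fun n => (S n).s n * τ) atTop (𝓝 (0 * τ)) :=
    (sl_summable S hinv).tendsto_atTop_zero.mul_const τ
  simpa using h1.add h2

include hinv hrel hP0 in
lemma hat_bound (z : ℂ) (hz : z.re ≤ 0) :
    ‖(1 - z) * (∫ t in Ioi (0:ℝ), (ff S t : ℂ) * Complex.exp (z * t)) - 1‖ ≤ 1 / 2 := by
  have hlim : Tendsto (fun n => ∫ t in Ioi (0:ℝ), (FF S (n + 1) t : ℂ) * Complex.exp (z * t)) atTop
      (𝓝 (∫ t in Ioi (0:ℝ), (ff S t : ℂ) * Complex.exp (z * t))) := by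
    apply tendsto_integral_of_dominated_convergence (DD S)
    · intro n
      exact (FF_int S hinv (n + 1) z (by linarith)).1.aestronglyMeasurable
    · exact DD_int1 S hinv hrel
    · intro n
      filter_upwards [ae_restrict_mem measurableSet_Ioi] with t ht
      rw [norm_mul, Complex.norm_real, Complex.norm_exp]
      have h1 : (z * t).re ≤ 0 := by
        simp only [Complex.mul_re, Complex.ofReal_re, Complex.ofReal_im, mul_zero, sub_zero]
        exact mul_nonpos_of_nonpos_of_nonneg hz (le_of_lt ht)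
      have h2 : Real.exp (z * t).re ≤ 1 := Real.exp_le_one_iff.2 h1
      calc ‖FF S (n + 1) t‖ * Real.exp (z * t).re ≤ DD S t * 1 := by
            apply mul_le_mul (FF_le S hinv hrel (n + 1) t) h2 (Real.exp_pos _).le (DD_nonneg S t)
        _ = DD S t := mul_one _
    · filter_upwards with t
      have h1 : Tendsto (fun n => FF S (n + 1) t) atTop (𝓝 (ff S t)) :=
        (FF_tendsto S hinv hrel t).comp (tendsto_add_atTop_nat 1)
      have h2 : Tendsto (fun n => ((FF S (n + 1) t : ℝ) : ℂ)) atTop (𝓝 ((ff S t : ℝ) : ℂ)) :=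
        (Complex.continuous_ofReal.tendsto _).comp h1
      exact h2.mul_const _
  have hne : (1:ℂ) - z ≠ 0 := by
    intro h
    have h1 : z = 1 := by linear_combination -h
    rw [h1] at hz
    norm_num at hz
  have h3 : ∀ n, ‖(1 - z) * (∫ t in Ioi (0:ℝ), (FF S (n + 1) t : ℂ) * Complex.exp (z * t)) - 1‖ ≤
      1 / 2 := by
    intro n
    rw [(FF_int S hinv (n + 1) z (by linarith)).2, ← P_formula S hrel hP0 n z,
      mul_div_cancel₀ _ hne]
    have h4 := (hinv n).hPb z (by linarith)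
    rw [max_eq_right hz, zero_mul, Real.exp_zero, mul_one] at h4
    have h5 : (0:ℝ) < (1 / 2) ^ (n + 2) := by positivity
    linarith
  have h6 := ((hlim.const_mul (1 - z)).sub_const 1).norm
  exact le_of_tendsto h6 (Eventually.of_forall h3)

include hinv hrel hw0 in
lemma G_step (n : ℕ) (τ : ℝ) (hτ : 0 ≤ τ) (h : τ < tt S (n + 1) / 2) :
    dist ((S n).G τ) ((S (n + 1)).G τ) ≤ Real.exp (τ / 4) / 16 * (1 / 2) ^ n := by
  have h1 := (hrel n).G τ hτ
  have h2 : τ < (S (n + 1)).T / 2 := h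
  rw [if_pos h2] at h1
  rw [dist_comm, dist_eq_norm]
  refine h1.trans ?_
  have h3 : (S n).s n * dd (S (n + 1)).T τ + (S (n + 1)).s (n + 1) * τ ≤ τ / 4 := by
    have h2' : dd (S (n + 1)).T τ = τ := dd_small (tt S (n + 1)) τ (tt_pos S hinv (n + 1)) hτ h2
    rw [h2']
    have h4 : sl S n + sl S (n + 1) ≤ 1 / 4 := by
      have h5 := sl_le S hinv n
      have h6 := sl_le S hinv (n + 1)
      have h7 : (1 / 2 : ℝ) ^ n ≤ 1 := pow_le_one₀ (by norm_num) (by norm_num)
      have h8 : (1 / 2 : ℝ) ^ (n + 1) ≤ 1 := pow_le_one₀ (by norm_num) (by norm_num)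
      linarith
    have h9 : (S n).s n = sl S n := rfl
    have h10 : (S (n + 1)).s (n + 1) = sl S (n + 1) := rfl
    rw [h9, h10]
    nlinarith
  calc (1 / 2 : ℝ) ^ (n + 4) * Real.exp ((S n).s n * dd (S (n + 1)).T τ + (S (n + 1)).s (n + 1) * τ)
      ≤ (1 / 2 : ℝ) ^ (n + 4) * Real.exp (τ / 4) := by gcongr
    _ = _ := by rw [pow_add]; ring

include hinv hrel hw0 in
lemma G_tendsto (τ : ℝ) (hτ : 0 ≤ τ) : ∃ y : ℂ, Tendsto (fun n => (S n).G τ) atTop (𝓝 y) := by
  obtain ⟨N, hN⟩ : ∃ N : ℕ, τ < N := exists_nat_gt τ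
  have h0 : ∀ n, τ < tt S (n + N + 1) / 2 := by
    intro n
    have h1 := tt_large S hinv hrel (n + N + 1)
    have h2 : ((n + N + 1 : ℕ) : ℝ) ≤ 2 ^ (n + N + 1) := by
      have : n + N + 1 < 2 ^ (n + N + 1) := Nat.lt_pow_self (by norm_num)
      exact_mod_cast this.le
    have h3 : (2:ℝ) ≤ 2 ^ (n + N + 1) := by
      calc (2:ℝ) = 2 ^ 1 := by norm_num
        _ ≤ 2 ^ (n + N + 1) := pow_le_pow_right₀ (by norm_num) (by omega)
    have h4 : (4:ℝ) ^ (n + N + 1) = 2 ^ (n + N + 1) * 2 ^ (n + N + 1) := by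
      rw [← mul_pow]; norm_num
    have h5 : (N:ℝ) ≤ ((n + N + 1 : ℕ) : ℝ) := by exact_mod_cast (by omega : N ≤ n + N + 1)
    nlinarith
  have hc : CauchySeq (fun n => (S (n + N)).G τ) := by
    apply cauchySeq_of_le_geometric (1 / 2) (Real.exp (τ / 4) / 16) (by norm_num)
    intro n
    have h1 := G_step S hinv hrel hw0 (n + N) τ hτ (h0 n)
    have h2 : n + 1 + N = n + N + 1 := by ring
    rw [h2]
    refine h1.trans ?_
    apply mul_le_mul_of_nonneg_left _ (by positivity)
    exact pow_le_pow_of_le_one (by norm_num) (by norm_num) (by omega)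
  obtain ⟨y, hy⟩ := cauchySeq_tendsto_of_complete hc
  exact ⟨y, (tendsto_add_atTop_iff_nat N).1 hy⟩

include hinv in
lemma ortho_n (n : ℕ) (hP : ∀ z : ℂ, (S n).P z = 1 + ∑ j ∈ Finset.range (n + 1),
      cc j * (z / (z - EE j)) * Complex.exp (z * tt S j)) (τ : ℝ) (G : ℝ → ℂ)
    (hG : G ∈ VV (MM (S n).P ((S n).s n) (EE (n + 1)))) :
    IntegrableOn (fun t : ℝ => (FF S (n + 1) t : ℂ) * G (t + τ)) (Ioi 0) ∧
    ∫ t in Ioi (0:ℝ), (FF S (n + 1) t : ℂ) * G (t + τ) = 0 := by
  induction hG using Submodule.span_induction with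
  | mem x h =>
    obtain ⟨z, ⟨hz1, hz2, hz3⟩, rfl⟩ := h
    have hs : (S n).s n ≤ 1 / 8 := by
      refine (hinv n).hs.trans ?_
      have : (1 / 2 : ℝ) ^ n ≤ 1 := pow_le_one₀ (by norm_num) (by norm_num)
      linarith
    have hre : z.re < 1 := by
      have := (abs_lt.1 hz2).2
      linarith
    have h1 : (fun t : ℝ => (FF S (n + 1) t : ℂ) * ef z (t + τ)) = fun t : ℝ =>
        Complex.exp (z * τ) * ((FF S (n + 1) t : ℂ) * Complex.exp (z * t)) := by
      funext t
      unfold ef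
      push_cast
      rw [mul_add, Complex.exp_add]
      ring
    obtain ⟨h2, h3⟩ := FF_int S hinv (n + 1) z hre
    rw [h1]
    refine ⟨h2.const_mul _, ?_⟩
    rw [integral_const_mul, h3, ← hP z, hz1, zero_div, mul_zero]
  | zero => simp
  | add x y _ _ hx hy =>
    have h1 : (fun t : ℝ => (FF S (n + 1) t : ℂ) * (x + y) (t + τ)) = fun t : ℝ =>
        (FF S (n + 1) t : ℂ) * x (t + τ) + (FF S (n + 1) t : ℂ) * y (t + τ) := by
      funext t; rw [Pi.add_apply, mul_add]
    rw [h1]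
    refine ⟨hx.1.add hy.1, ?_⟩
    rw [integral_add hx.1 hy.1, hx.2, hy.2, add_zero]
  | smul b x _ hx =>
    have h1 : (fun t : ℝ => (FF S (n + 1) t : ℂ) * (b • x) (t + τ)) = fun t : ℝ =>
        b * ((FF S (n + 1) t : ℂ) * x (t + τ)) := by
      funext t; rw [Pi.smul_apply, smul_eq_mul]; ring
    rw [h1]
    refine ⟨hx.1.const_mul _, ?_⟩
    rw [integral_const_mul, hx.2, mul_zero]

include hinv hrel hw0 hP0 in
lemma ortho (g : ℝ → ℂ) (hg : ∀ τ, 0 ≤ τ → Tendsto (fun n => (S n).G τ) atTop (𝓝 (g τ)))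
    (τ : ℝ) (hτ : 0 < τ) : ∫ t in Ioi (0:ℝ), (ff S t : ℂ) * g (t + τ) = 0 := by
  have hlim : Tendsto (fun n => ∫ t in Ioi (0:ℝ), (FF S (n + 1) t : ℂ) * (S n).G (t + τ)) atTop
      (𝓝 (∫ t in Ioi (0:ℝ), (ff S t : ℂ) * g (t + τ))) := by
    apply tendsto_integral_of_dominated_convergence (fun t => 2 * Real.exp (pp S τ) *
      (DD S t * Real.exp (pp S t)) + 6 * Real.exp (3 * τ / 4) * Real.exp (-(1 / 4) * (t - 0)))
    · intro n
      exact (ortho_n S hinv n (P_formula S hrel hP0 n) τ _ (hinv n).hG).1.aestronglyMeasurable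
    · exact ((DD_int S hinv hrel).const_mul _).add
        ((exp_int (1 / 4) 0 (by norm_num)).1.const_mul _)
    · intro n
      filter_upwards [ae_restrict_mem measurableSet_Ioi] with t ht
      have ht0 : (0:ℝ) < t := ht
      have hx0 : 0 ≤ t + τ := by linarith
      have hGb : ‖(S n).G (t + τ)‖ ≤ 2 * Real.exp ((S n).w (t + τ) + (S n).s n * (t + τ)) := by
        refine ((hinv n).hGb _ hx0).trans ?_
        gcongr
        have : (0:ℝ) < (1 / 2) ^ n := by positivity
        linarith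
      rw [norm_mul, Complex.norm_real]
      have hA : 0 ≤ 2 * Real.exp (pp S τ) * (DD S t * Real.exp (pp S t)) :=
        mul_nonneg (by positivity) (mul_nonneg (DD_nonneg S t) (Real.exp_pos _).le)
      have hB : 0 ≤ 6 * Real.exp (3 * τ / 4) * Real.exp (-(1 / 4) * (t - 0)) := by positivity
      rcases lt_or_ge (t + τ) (tt S (n + 1) / 2) with h | h
      · have h1 := w_pp S hinv hrel hw0 n (t + τ) hx0 h
        have h2 := pp_add S hinv τ t
        rw [add_comm τ t] at h2
        have h3 : ‖(S n).G (t + τ)‖ ≤ 2 * (Real.exp (pp S τ) * Real.exp (pp S t)) := by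
          refine hGb.trans ?_
          rw [← Real.exp_add]
          apply mul_le_mul_of_nonneg_left (Real.exp_le_exp.2 (by linarith)) (by norm_num)
        calc ‖FF S (n + 1) t‖ * ‖(S n).G (t + τ)‖ ≤
              DD S t * (2 * (Real.exp (pp S τ) * Real.exp (pp S t))) := by
              apply mul_le_mul (FF_le S hinv hrel (n + 1) t) h3 (norm_nonneg _) (DD_nonneg S t)
          _ = 2 * Real.exp (pp S τ) * (DD S t * Real.exp (pp S t)) := by ring
          _ ≤ _ := by linarith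
      · have h1 := w_le S hinv hrel hw0 n (t + τ) hx0
        have h2 := FF_exp S hinv hrel n t
        have h3 : 4 * tt S n ≤ tt S (n + 1) := (hrel n).T4
        have h4 : ‖(S n).G (t + τ)‖ ≤ 2 * Real.exp ((t + τ) / 4) := by
          refine hGb.trans ?_
          gcongr
        have h5 : |FF S (n + 1) t| ≤ 3 * Real.exp ((t + τ) / 2 - t) := by
          refine h2.trans ?_
          gcongr
          linarith
        calc ‖FF S (n + 1) t‖ * ‖(S n).G (t + τ)‖ ≤
              (3 * Real.exp ((t + τ) / 2 - t)) * (2 * Real.exp ((t + τ) / 4)) := by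
              apply mul_le_mul h5 h4 (norm_nonneg _) (by positivity)
          _ = 6 * (Real.exp ((t + τ) / 2 - t) * Real.exp ((t + τ) / 4)) := by ring
          _ = 6 * Real.exp (3 * τ / 4) * Real.exp (-(1 / 4) * (t - 0)) := by
              rw [mul_assoc, ← Real.exp_add, ← Real.exp_add]
              congr 2
              ring
          _ ≤ _ := by linarith
    · filter_upwards [ae_restrict_mem measurableSet_Ioi] with t ht
      have ht0 : (0:ℝ) < t := ht
      have h1 : Tendsto (fun n => FF S (n + 1) t) atTop (𝓝 (ff S t)) :=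
        (FF_tendsto S hinv hrel t).comp (tendsto_add_atTop_nat 1)
      have h2 : Tendsto (fun n => ((FF S (n + 1) t : ℝ) : ℂ)) atTop (𝓝 ((ff S t : ℝ) : ℂ)) :=
        (Complex.continuous_ofReal.tendsto _).comp h1
      exact h2.mul (hg (t + τ) (by linarith))
  have hz : ∀ n, ∫ t in Ioi (0:ℝ), (FF S (n + 1) t : ℂ) * (S n).G (t + τ) = 0 := fun n =>
    (ortho_n S hinv n (P_formula S hrel hP0 n) τ _ (hinv n).hG).2
  simp only [hz] at hlim
  exact (tendsto_nhds_unique hlim tendsto_const_nhds)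

end

/-- **The counterexample.** -/
theorem main : ∃ (p f : ℝ → ℝ) (g : ℝ → ℂ),
    (Measurable p ∧ (∀ t, 0 ≤ p t) ∧ (∀ t τ, p (t + τ) ≤ p t + p τ) ∧
      Tendsto (fun t => p t / t) atTop (𝓝 0) ∧ Tendsto (fun t => p t / t) atBot (𝓝 0)) ∧
    (Measurable f ∧ (∀ t, t < 0 → f t = 0) ∧
      IntegrableOn (fun t => |f t| * Real.exp (p t)) (Ioi 0)) ∧
    (∀ z : ℂ, z.re ≤ 0 →
      ‖(1 - z) * (∫ t in Ioi (0:ℝ), (f t : ℂ) * Complex.exp (z * t)) - 1‖ ≤ 1 / 2) ∧
    (AEStronglyMeasurable g (volume.restrict (Ioi 0)) ∧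
      ∀ t, 0 ≤ t → ‖g t‖ ≤ 2 * Real.exp (p t)) ∧
    (∀ τ : ℝ, 0 < τ → ∫ t in Ioi (0:ℝ), (f t : ℂ) * g (t + τ) = 0) ∧
    (∀ t, 0 ≤ t → t ≤ 1 → g t ≠ 0) := by
  obtain ⟨S, hinv, hrel, hw0, hP0, μ, hG0, hμ⟩ := exists_seq
  have hgex : ∀ τ : ℝ, ∃ y : ℂ, 0 ≤ τ → Tendsto (fun n => (S n).G τ) atTop (𝓝 y) := by
    intro τ
    by_cases h : 0 ≤ τ
    · obtain ⟨y, hy⟩ := G_tendsto S hinv hrel hw0 τ h
      exact ⟨y, fun _ => hy⟩
    · exact ⟨0, fun h' => absurd h' h⟩
  choose g hg using hgex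
  refine ⟨pp S, ff S, g, ⟨pp_meas S hinv, pp_nonneg S hinv, pp_add S hinv,
    pp_lim S hinv atTop tendsto_abs_atTop_atTop, pp_lim S hinv atBot tendsto_abs_atBot_atTop⟩,
    ⟨ff_meas S hinv hrel, ?_, ?_⟩, hat_bound S hinv hrel hP0, ⟨?_, ?_⟩,
    ortho S hinv hrel hw0 hP0 g hg, ?_⟩
  · intro t ht
    unfold ff e0
    rw [if_neg (not_le.2 ht)]
    have : ∀ j, tm S j t = 0 := fun j => tm_zero S j t (by linarith [tt_pos S hinv j])
    simp [this]
  · have h1 := ff_meas S hinv hrel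
    have h2 := pp_meas S hinv
    apply Integrable.mono' (DD_int S hinv hrel) (by fun_prop)
    filter_upwards with t
    rw [Real.norm_of_nonneg (by positivity)]
    exact mul_le_mul_of_nonneg_right (ff_le S hinv hrel t) (Real.exp_pos _).le
  · apply aestronglyMeasurable_of_tendsto_ae atTop (f := fun n => (S n).G)
    · intro n
      exact (VV_cont _ _ (hinv n).hG).aestronglyMeasurable
    · filter_upwards [ae_restrict_mem measurableSet_Ioi] with t ht
      exact hg t (le_of_lt ht)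
  · intro t ht
    have h1 : Tendsto (fun n => 2 * Real.exp ((S n).w t + (S n).s n * t)) atTop
        (𝓝 (2 * Real.exp (pp S t))) :=
      ((Real.continuous_exp.tendsto _).comp (w_tendsto S hinv hrel hw0 t)).const_mul 2
    apply le_of_tendsto_of_tendsto' (hg t ht).norm h1
    intro n
    refine ((hinv n).hGb t ht).trans ?_
    gcongr
    have : (0:ℝ) < (1 / 2) ^ n := by positivity
    linarith
  · intro t ht ht1 h0
    have h1 : dist ((S 0).G t) (g t) ≤ Real.exp (t / 4) / 16 / (1 - 1 / 2) := by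
      apply dist_le_of_le_geometric_of_tendsto₀ (1 / 2) (Real.exp (t / 4) / 16) (by norm_num)
        _ (hg t ht)
      intro n
      apply G_step S hinv hrel hw0 n t ht
      have h2 := tt_large S hinv hrel (n + 1)
      have h3 : (4:ℝ) ≤ 4 ^ (n + 1) := by
        calc (4:ℝ) = 4 ^ 1 := by norm_num
          _ ≤ 4 ^ (n + 1) := pow_le_pow_right₀ (by norm_num) (by omega)
      linarith
    rw [h0, dist_zero_right, hG0] at h1
    have h2 : ‖ef μ t‖ = Real.exp (μ.re * t) := by
      unfold ef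
      rw [Complex.norm_exp]
      simp
    rw [h2] at h1
    have h6 : Real.exp (t / 4) / 16 / (1 - 1 / 2) = Real.exp (t / 4) / 8 := by ring
    rw [h6] at h1
    have h3 : -(1 / 8) ≤ μ.re * t := by
      have := abs_lt.1 hμ
      nlinarith
    have h4 : Real.exp (t / 4) ≤ 2 := (Real.exp_le_exp.2 (by linarith)).trans exp_quarter
    have h5 : 1 - 1 / 8 ≤ Real.exp (μ.re * t) := by
      have := Real.add_one_le_exp (μ.re * t)
      linarith
    linarith

end Pool.Agent.U312.RT
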