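import Pool.Agent.U312.RT.Wt

/-!
The function `f`.
-/

set_option autoImplicit false
set_option linter.unusedSectionVars false

open Filter Topology Metric Set MeasureTheory

namespace Pool.Agent.U312.RT

/-- the first term -/
noncomputable def e0 (t : ℝ) : ℝ := if 0 ≤ t then Real.exp (-t) else 0

/-- the `j`-th term -/
noncomputable def tm (S : ℕ → St) (j : ℕ) (t : ℝ) : ℝ :=
  if tt S j < t then
    cc j / (EE j - 1) * (EE j * Real.exp (-EE j * (t - tt S j)) - Real.exp (-(t - tt S j)))
  else 0

/-- partial sums -/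
noncomputable def FF (S : ℕ → St) (n : ℕ) (t : ℝ) : ℝ := e0 t + ∑ j ∈ Finset.range n, tm S j t

/-- the function `f` -/
noncomputable def ff (S : ℕ → St) (t : ℝ) : ℝ := e0 t + ∑' j, tm S j t

/-- the majorant -/
noncomputable def DD (S : ℕ → St) (t : ℝ) : ℝ := e0 t + ∑' j, |tm S j t|

lemma e0_meas : Measurable e0 := by
  unfold e0
  exact Measurable.ite measurableSet_Ici (by fun_prop) measurable_const

lemma e0_nonneg (t : ℝ) : 0 ≤ e0 t := by
  unfold e0; split_ifs <;> positivity

lemma tm_meas (S : ℕ → St) (j : ℕ) : Measurable (tm S j) := by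
  unfold tm
  exact Measurable.ite measurableSet_Ioi (by fun_prop) measurable_const

section

variable (S : ℕ → St) (hinv : ∀ k, Inv k (S k)) (hrel : ∀ k, Rel k (S k) (S (k + 1)))

lemma tm_zero (j : ℕ) (t : ℝ) (h : t ≤ tt S j) : tm S j t = 0 := by
  unfold tm; rw [if_neg (not_lt.2 h)]

lemma tm_bound (j : ℕ) (t : ℝ) : |tm S j t| ≤ 3 * cc j * Real.exp (tt S j - t) := by
  unfold tm
  have hc := cc_pos j
  have hX : 2 ≤ EE j := EE_two j
  split_ifs with h
  · rw [abs_mul, abs_of_nonneg (div_nonneg hc.le (by linarith))]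
    have h1 : |EE j * Real.exp (-EE j * (t - tt S j)) - Real.exp (-(t - tt S j))| ≤
        (EE j + 1) * Real.exp (tt S j - t) := by
      refine (abs_sub _ _).trans ?_
      rw [abs_of_nonneg (by positivity), abs_of_nonneg (by positivity)]
      have h2 : Real.exp (-EE j * (t - tt S j)) ≤ Real.exp (tt S j - t) := by
        apply Real.exp_le_exp.2; nlinarith
      have h3 : -(t - tt S j) = tt S j - t := by ring
      rw [h3]
      nlinarith
    have h4 : (EE j + 1) / (EE j - 1) ≤ 3 := by
      rw [div_le_iff₀ (by linarith)]; linarith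
    calc cc j / (EE j - 1) * |EE j * Real.exp (-EE j * (t - tt S j)) - Real.exp (-(t - tt S j))|
        ≤ cc j / (EE j - 1) * ((EE j + 1) * Real.exp (tt S j - t)) := by
          apply mul_le_mul_of_nonneg_left h1 (div_nonneg hc.le (by linarith))
      _ = ((EE j + 1) / (EE j - 1)) * cc j * Real.exp (tt S j - t) := by ring
      _ ≤ _ := by gcongr
  · rw [abs_zero]; positivity

include hinv hrel in
lemma tm_fin (t : ℝ) (j : ℕ) (hj : ⌈t⌉₊ ≤ j) : tm S j t = 0 := by
  apply tm_zero
  have h1 := tt_large S hinv hrel j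
  have h2 : t ≤ ⌈t⌉₊ := Nat.le_ceil t
  have h3 : ((⌈t⌉₊ : ℕ) : ℝ) ≤ j := by exact_mod_cast hj
  have h4 : (j : ℝ) ≤ 4 ^ j := by
    have : j < 4 ^ j := Nat.lt_pow_self (by norm_num)
    exact_mod_cast this.le
  linarith

include hinv hrel in
lemma tm_summable (t : ℝ) : Summable (fun j => tm S j t) := by
  apply summable_of_ne_finset_zero (s := Finset.range ⌈t⌉₊)
  intro j hj
  exact tm_fin S hinv hrel t j (by simpa using hj)

include hinv hrel in
lemma tm_summable_abs (t : ℝ) : Summable (fun j => |tm S j t|) := by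
  apply summable_of_ne_finset_zero (s := Finset.range ⌈t⌉₊)
  intro j hj
  rw [tm_fin S hinv hrel t j (by simpa using hj), abs_zero]

include hinv hrel in
lemma FF_tendsto (t : ℝ) : Tendsto (fun n => FF S n t) atTop (𝓝 (ff S t)) :=
  ((tm_summable S hinv hrel t).hasSum.tendsto_sum_nat).const_add _

lemma FF_meas (n : ℕ) : Measurable (FF S n) := by
  unfold FF
  exact e0_meas.add (Finset.measurable_sum _ fun j _ => tm_meas S j)

include hinv hrel in
lemma ff_meas : Measurable (ff S) := by
  apply measurable_of_tendsto_metrizable (FF_meas S)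
  rw [tendsto_pi_nhds]
  exact FF_tendsto S hinv hrel

include hinv hrel in
lemma FF_le (n : ℕ) (t : ℝ) : |FF S n t| ≤ DD S t := by
  unfold FF DD
  refine (abs_add_le _ _).trans ?_
  rw [abs_of_nonneg (e0_nonneg t)]
  gcongr
  refine (Finset.abs_sum_le_sum_abs _ _).trans ?_
  exact (tm_summable_abs S hinv hrel t).sum_le_tsum _ (fun _ _ => abs_nonneg _)

include hinv hrel in
lemma ff_le (t : ℝ) : |ff S t| ≤ DD S t :=
  le_of_tendsto ((FF_tendsto S hinv hrel t).abs) (Eventually.of_forall fun n =>
    FF_le S hinv hrel n t)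

lemma cc_sum : HasSum cc (1 / 2) := by
  have h := (hasSum_geometric_of_lt_one (r := (1 / 2 : ℝ)) (by norm_num) (by norm_num)).mul_left (1 / 4)
  have h2 : (fun i : ℕ => (1 / 4 : ℝ) * (1 / 2) ^ i) = cc := by
    funext i; unfold cc; ring
  rw [h2] at h
  rw [show (1 / 2 : ℝ) = 1 / 4 * (1 - 1 / 2)⁻¹ by norm_num]
  exact h

include hinv hrel in
lemma FF_exp (n : ℕ) (t : ℝ) : |FF S (n + 1) t| ≤ 3 * Real.exp (tt S n - t) := by
  unfold FF
  refine (abs_add_le _ _).trans ?_
  have h1 : |e0 t| ≤ Real.exp (tt S n - t) := by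
    rw [abs_of_nonneg (e0_nonneg t)]
    unfold e0
    have := tt_pos S hinv n
    split_ifs
    · apply Real.exp_le_exp.2; linarith
    · positivity
  have h2 : |∑ j ∈ Finset.range (n + 1), tm S j t| ≤ ∑ j ∈ Finset.range (n + 1),
      cc j * (3 * Real.exp (tt S n - t)) := by
    refine (Finset.abs_sum_le_sum_abs _ _).trans ?_
    apply Finset.sum_le_sum
    intro j hj
    refine (tm_bound S j t).trans ?_
    have h3 := tt_mono S hinv hrel j n (by have := Finset.mem_range.1 hj; omega)
    have h4 := cc_pos j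
    calc 3 * cc j * Real.exp (tt S j - t) ≤ 3 * cc j * Real.exp (tt S n - t) := by gcongr
      _ = _ := by ring
  have h3 : ∑ j ∈ Finset.range (n + 1), cc j * (3 * Real.exp (tt S n - t)) ≤
      1 / 2 * (3 * Real.exp (tt S n - t)) := by
    rw [← Finset.sum_mul]
    gcongr
    exact sum_le_hasSum _ (fun j _ => (cc_pos j).le) cc_sum
  have h5 := Real.exp_pos (tt S n - t)
  linarith

/-! Laplace transforms -/

lemma e0_int (z : ℂ) (hz : z.re < 1) :
    IntegrableOn (fun t : ℝ => (e0 t : ℂ) * Complex.exp (z * t)) (Ioi 0) ∧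
    ∫ t in Ioi (0:ℝ), (e0 t : ℂ) * Complex.exp (z * t) = 1 / (1 - z) := by
  have hre : (z - 1).re < 0 := by simp; linarith
  have h1 : ∀ t ∈ Ioi (0:ℝ), (e0 t : ℂ) * Complex.exp (z * t) = Complex.exp ((z - 1) * t) := by
    intro t ht
    unfold e0
    rw [if_pos (le_of_lt ht), Complex.ofReal_exp, ← Complex.exp_add]
    congr 1
    push_cast; ring
  constructor
  · exact (integrableOn_exp_mul_complex_Ioi hre 0).congr_fun (fun t ht => (h1 t ht).symm)
      measurableSet_Ioi
  · rw [setIntegral_congr_fun measurableSet_Ioi h1, integral_exp_mul_complex_Ioi hre 0]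
    have h2 : z - 1 ≠ 0 := by intro h; rw [h] at hre; simp at hre
    have h3 : 1 - z ≠ 0 := by intro h; apply h2; linear_combination -h
    simp only [Complex.ofReal_zero, mul_zero, Complex.exp_zero]
    field_simp
    ring

include hinv in
lemma tm_int (j : ℕ) (z : ℂ) (hz : z.re < 1) :
    IntegrableOn (fun t : ℝ => (tm S j t : ℂ) * Complex.exp (z * t)) (Ioi 0) ∧
    ∫ t in Ioi (0:ℝ), (tm S j t : ℂ) * Complex.exp (z * t) =
      cc j * (z / (z - EE j)) * Complex.exp (z * tt S j) / (1 - z) := by
  have hX : 2 ≤ EE j := EE_two j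
  set X := EE j with hXd
  set T := tt S j with hTd
  have hT : 0 < T := tt_pos S hinv j
  have hre1 : (z - 1).re < 0 := by simp; linarith
  have hre2 : (z - X).re < 0 := by simp; linarith
  set h : ℝ → ℂ := fun t => (cc j / (X - 1) : ℝ) *
    (X * Complex.exp (X * T) * Complex.exp ((z - X) * t) -
      Complex.exp T * Complex.exp ((z - 1) * t)) with hh
  have h1 : (fun t : ℝ => (tm S j t : ℂ) * Complex.exp (z * t)) = (Ioi T).indicator h := by
    funext t
    unfold tm
    by_cases ht : T < t
    · rw [if_pos ht, indicator_of_mem (show t ∈ Ioi T from ht), hh]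
      simp only
      push_cast
      rw [mul_assoc, sub_mul]
      congr 2
      · rw [mul_assoc, mul_assoc, ← Complex.exp_add, ← Complex.exp_add]
        congr 2
        ring
      · rw [← Complex.exp_add, ← Complex.exp_add]
        congr 1
        ring
    · rw [if_neg ht, indicator_of_notMem (show t ∉ Ioi T from ht)]
      simp
  have hint1 := integrableOn_exp_mul_complex_Ioi hre2 T
  have hint2 := integrableOn_exp_mul_complex_Ioi hre1 T
  have hi1 : IntegrableOn (fun t : ℝ => X * Complex.exp (X * T) * Complex.exp ((z - X) * t)) (Ioi T) :=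
    hint1.const_mul _
  have hi2 : IntegrableOn (fun t : ℝ => Complex.exp T * Complex.exp ((z - 1) * t)) (Ioi T) :=
    hint2.const_mul _
  have hi : IntegrableOn h (Ioi T) := (hi1.sub hi2).const_mul _
  rw [h1]
  constructor
  · exact ((integrable_indicator_iff measurableSet_Ioi).2 hi).integrableOn
  · rw [setIntegral_indicator measurableSet_Ioi]
    have h2 : Ioi (0:ℝ) ∩ Ioi T = Ioi T := by
      rw [inter_eq_right]
      exact Ioi_subset_Ioi hT.le
    rw [h2, hh]
    rw [integral_const_mul, integral_sub hi1 hi2, integral_const_mul, integral_const_mul,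
      integral_exp_mul_complex_Ioi hre2 T, integral_exp_mul_complex_Ioi hre1 T]
    have n1 : z - 1 ≠ 0 := by intro h; rw [h] at hre1; simp at hre1
    have n2 : z - X ≠ 0 := by intro h; rw [h] at hre2; simp at hre2
    have n3 : 1 - z ≠ 0 := by intro h; apply n1; linear_combination -h
    have n4 : (X:ℂ) - 1 ≠ 0 := by
      have : X - 1 ≠ 0 := by linarith
      exact_mod_cast this
    have e1 : Complex.exp (X * T) * Complex.exp ((z - X) * T) = Complex.exp (z * T) := by
      rw [← Complex.exp_add]; congr 1; ring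
    have e2 : Complex.exp T * Complex.exp ((z - 1) * T) = Complex.exp (z * T) := by
      rw [← Complex.exp_add]; congr 1; ring
    have e3 : X * Complex.exp (X * T) * (-Complex.exp ((z - X) * T) / (z - X)) =
        -X * Complex.exp (z * T) / (z - X) := by
      rw [← e1]; ring
    have e4 : Complex.exp T * (-Complex.exp ((z - 1) * T) / (z - 1)) =
        -Complex.exp (z * T) / (z - 1) := by
      rw [← e2]; ring
    rw [e3, e4]
    push_cast
    field_simp
    ring

include hinv in
lemma FF_int (n : ℕ) (z : ℂ) (hz : z.re < 1) :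
    IntegrableOn (fun t : ℝ => (FF S n t : ℂ) * Complex.exp (z * t)) (Ioi 0) ∧
    ∫ t in Ioi (0:ℝ), (FF S n t : ℂ) * Complex.exp (z * t) =
      (1 + ∑ j ∈ Finset.range n, cc j * (z / (z - EE j)) * Complex.exp (z * tt S j)) / (1 - z) := by
  have h1 : (fun t : ℝ => (FF S n t : ℂ) * Complex.exp (z * t)) = fun t : ℝ =>
      (e0 t : ℂ) * Complex.exp (z * t) + ∑ j ∈ Finset.range n, (tm S j t : ℂ) * Complex.exp (z * t) := by
    funext t
    unfold FF
    push_cast
    rw [add_mul, Finset.sum_mul]
  have h2 : IntegrableOn (fun t : ℝ => ∑ j ∈ Finset.range n, (tm S j t : ℂ) * Complex.exp (z * t))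
      (Ioi 0) := integrable_finsetSum _ fun j _ => (tm_int S hinv j z hz).1
  rw [h1]
  refine ⟨(e0_int z hz).1.add h2, ?_⟩
  rw [integral_add (e0_int z hz).1 h2, (e0_int z hz).2,
    integral_finsetSum _ fun j _ => (tm_int S hinv j z hz).1, add_div, Finset.sum_div]
  congr 1
  apply Finset.sum_congr rfl
  intro j _
  exact (tm_int S hinv j z hz).2

end

end Pool.Agent.U312.RT
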