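import Mathlib

/-!
Bounded families of holomorphic functions, and an approximation lemma (Hahn-Banach together with
the identity theorem).
-/

set_option autoImplicit false

open Filter Topology Metric Set

namespace Pool.Agent.U312.RT

open BoundedContinuousFunction

theorem hol_bcf {ι : Type} [TopologicalSpace ι] [DiscreteTopology ι] (ψ : ℂ → ι →ᵇ ℂ)
    (Ω : Set ℂ) (hΩ : IsOpen Ω) (C : ℝ) (hd : ∀ i, DifferentiableOn ℂ (fun z => ψ z i) Ω)
    (hb : ∀ z ∈ Ω, ∀ i, ‖ψ z i‖ ≤ C) : AnalyticOnNhd ℂ ψ Ω := by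
  intro z₀ hz₀
  obtain ⟨R', hR', hball⟩ := Metric.isOpen_iff.1 hΩ z₀ hz₀
  set R : ℝ := R' / 4 with hR
  have hR0 : 0 < R := by positivity
  have hC : 0 ≤ C ∨ IsEmpty ι := by
    rcases isEmpty_or_nonempty ι with h | ⟨⟨i⟩⟩
    · exact Or.inr h
    · exact Or.inl ((norm_nonneg _).trans (hb z₀ hz₀ i))
  -- derivative bound
  have hsub : ∀ z ∈ closedBall z₀ R, closedBall z R ⊆ Ω := by
    intro z hz w hw
    apply hball
    rw [mem_ball]
    rw [mem_closedBall] at hz hw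
    have := dist_triangle w z z₀
    linarith
  have hder : ∀ i, ∀ z ∈ closedBall z₀ R, ‖deriv (fun z => ψ z i) z‖ ≤ C / R := by
    intro i z hz
    apply Complex.norm_deriv_le_of_forall_mem_sphere_norm_le hR0
    · have h1 : DifferentiableOn ℂ (fun z => ψ z i) (closedBall z R) := (hd i).mono (hsub z hz)
      exact ((h1.mono (closure_ball_subset_closedBall)).diffContOnCl)
    · intro w hw
      exact hb w (hsub z hz (sphere_subset_closedBall hw)) i
  have hlip : ∀ z ∈ closedBall z₀ R, ∀ w ∈ closedBall z₀ R, ‖ψ z - ψ w‖ ≤ |C| / R * ‖z - w‖ := by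
    intro z hz w hw
    rw [BoundedContinuousFunction.norm_le (by positivity)]
    intro i
    have h2 : ‖(fun z => ψ z i) z - (fun z => ψ z i) w‖ ≤ C / R * ‖z - w‖ := by
      apply Convex.norm_image_sub_le_of_norm_deriv_le (𝕜 := ℂ) (s := closedBall z₀ R) ?_ ?_
        (convex_closedBall z₀ R) hw hz
      · intro x hx
        exact (hd i).differentiableAt (hΩ.mem_nhds (hsub x hx (mem_closedBall_self hR0.le)))
      · exact hder i
    refine le_trans h2 ?_
    gcongr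
    exact le_abs_self C
  have hcont : ContinuousOn ψ (closedBall z₀ R) := by
    apply LipschitzOnWith.continuousOn (K := Real.toNNReal (|C| / R))
    apply LipschitzOnWith.of_dist_le_mul
    intro x hx y hy
    rw [dist_eq_norm, dist_eq_norm, Real.coe_toNNReal _ (by positivity)]
    exact hlip x hx y hy
  have hint : CircleIntegrable ψ z₀ R :=
    ContinuousOn.circleIntegrable hR0.le (hcont.mono sphere_subset_closedBall)
  have hps := hasFPowerSeriesOn_cauchy_integral (f := ψ) (c := z₀) (R := ⟨R, hR0.le⟩) hint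
    (by exact_mod_cast hR0)
  have han : AnalyticAt ℂ (fun w => (2 * Real.pi * Complex.I : ℂ)⁻¹ •
      ∮ z in C(z₀, R), (z - w)⁻¹ • ψ z) z₀ := hps.analyticAt
  refine han.congr ?_
  filter_upwards [ball_mem_nhds z₀ hR0] with w hw
  ext i
  have hint2 : CircleIntegrable (fun z => (z - w)⁻¹ • ψ z) z₀ R := by
    apply ContinuousOn.circleIntegrable hR0.le
    refine ContinuousOn.smul (f := fun z : ℂ => (z - w)⁻¹) (g := ψ) ?_ ?_
    · apply ContinuousOn.inv₀ (by fun_prop)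
      intro z hz h
      have : z = w := sub_eq_zero.1 h
      rw [mem_sphere, this] at hz
      rw [mem_ball, hz] at hw
      exact lt_irrefl _ hw
    · exact hcont.mono sphere_subset_closedBall
  have h3 : (∮ z in C(z₀, R), (z - w)⁻¹ • ψ z) i = ∮ z in C(z₀, R), (z - w)⁻¹ • (ψ z i) := by
    have := ContinuousLinearMap.intervalIntegral_comp_comm
      (BoundedContinuousFunction.evalCLM (α := ι) (β := ℂ) ℂ i) hint2.out
    simp only [circleIntegral]
    simp only [BoundedContinuousFunction.evalCLM_apply] at this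
    rw [← this]
    rfl
  have h4 : ((2 * Real.pi * Complex.I : ℂ)⁻¹ • ∮ z in C(z₀, R), (z - w)⁻¹ • (ψ z i)) = ψ w i := by
    apply Complex.two_pi_I_inv_smul_circleIntegral_sub_inv_smul_of_differentiable_on_off_countable
      (s := ∅) countable_empty hw
    · exact ((hd i).continuousOn).mono (hsub z₀ (mem_closedBall_self hR0.le))
    · intro x hx
      exact (hd i).differentiableAt (hΩ.mem_nhds (hsub z₀ (mem_closedBall_self hR0.le)
        (ball_subset_closedBall hx.1)))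
  show ((2 * Real.pi * Complex.I : ℂ)⁻¹ • ∮ z in C(z₀, R), (z - w)⁻¹ • ψ z) i = ψ w i
  rw [← h4, ← h3]
  rfl

/-- Hahn-Banach and the identity theorem. -/
theorem approx {ι : Type} (ψ : ℂ → ι → ℂ) (Ω : Set ℂ) (hΩ : IsOpen Ω) (hΩc : IsPreconnected Ω)
    (hd : ∀ i, DifferentiableOn ℂ (fun z => ψ z i) Ω) (hb : ∀ z ∈ Ω, ∀ i, ‖ψ z i‖ ≤ 1)
    (A : Set ℂ) (hA : A ⊆ Ω) (z₀ : ℂ) (hz₀ : z₀ ∈ Ω) (hacc : ∃ᶠ z in 𝓝[≠] z₀, z ∈ A) :
    (∀ μ ∈ Ω, ∀ ε : ℝ, 0 < ε → ∃ a : ℂ →₀ ℂ, (∀ z ∈ a.support, z ∈ A) ∧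
      ∀ i, ‖ψ μ i - ∑ z ∈ a.support, a z * ψ z i‖ ≤ ε) ∧
    (∀ μ ∈ Ω, ∀ ε : ℝ, 0 < ε → ∀ᶠ z in 𝓝 μ, z ∈ Ω ∧ ∀ i, ‖ψ z i - ψ μ i‖ ≤ ε) := by
  classical
  let _ : TopologicalSpace ι := ⊥
  have : DiscreteTopology ι := ⟨rfl⟩
  let Ψ : ℂ → ι →ᵇ ℂ := fun z => if h : z ∈ Ω then
    BoundedContinuousFunction.ofNormedAddCommGroup (ψ z) continuous_of_discreteTopology 1 (hb z h)
    else 0
  have hΨ : ∀ z ∈ Ω, ∀ i, Ψ z i = ψ z i := by
    intro z hz i
    simp only [Ψ, dif_pos hz]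
    rfl
  have han : AnalyticOnNhd ℂ Ψ Ω := by
    apply hol_bcf Ψ Ω hΩ 1
    · intro i
      exact (hd i).congr (fun z hz => hΨ z hz i)
    · intro z hz i
      rw [hΨ z hz i]
      exact hb z hz i
  constructor
  · intro μ hμ ε hε
    set V : Submodule ℂ (ι →ᵇ ℂ) := Submodule.span ℂ (Ψ '' A) with hV
    have hzero : ‖(Submodule.Quotient.mk (Ψ μ) : (ι →ᵇ ℂ) ⧸ V)‖ = 0 := by
      by_contra hne
      obtain ⟨g, -, hg⟩ := exists_dual_vector ℂ (Submodule.Quotient.mk (Ψ μ) : (ι →ᵇ ℂ) ⧸ V) hne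
      set ν : (ι →ᵇ ℂ) →L[ℂ] ℂ := g.comp V.mkQL with hν
      have h1 : AnalyticOnNhd ℂ (fun z => ν (Ψ z)) Ω := by
        intro z hz
        exact ν.analyticAt (Ψ z) |>.comp (han z hz)
      have h2 : ∀ z ∈ A, ν (Ψ z) = 0 := by
        intro z hz
        have h3 : Ψ z ∈ V := Submodule.subset_span ⟨z, hz, rfl⟩
        rw [hν]
        simp only [ContinuousLinearMap.comp_apply, Submodule.mkQL_apply]
        have h3' : V.mkQ (Ψ z) = 0 := (Submodule.Quotient.mk_eq_zero V).2 h3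
        rw [h3', map_zero]
      have h4 := h1.eqOn_zero_of_preconnected_of_frequently_eq_zero hΩc hz₀
        (hacc.mono h2)
      have h5 : ν (Ψ μ) = 0 := h4 hμ
      rw [hν] at h5
      simp only [ContinuousLinearMap.comp_apply, Submodule.mkQL_apply] at h5
      rw [show V.mkQ (Ψ μ) = Submodule.Quotient.mk (Ψ μ) from rfl, hg] at h5
      apply hne
      exact Complex.ofReal_eq_zero.1 h5
    obtain ⟨m, hm1, hm2⟩ := Submodule.Quotient.norm_mk_lt
      (Submodule.Quotient.mk (Ψ μ) : (ι →ᵇ ℂ) ⧸ V) hε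
    rw [hzero, zero_add] at hm2
    have hv : Ψ μ - m ∈ V := by
      rw [← Submodule.Quotient.eq]
      exact hm1.symm
    obtain ⟨a, ha1, ha2⟩ := (Finsupp.mem_span_image_iff_linearCombination ℂ).1 hv
    refine ⟨a, ?_, ?_⟩
    · intro z hz
      exact (Finsupp.mem_supported ℂ a).1 ha1 hz
    · intro i
      have h6 : m i = Ψ μ i - (Finsupp.linearCombination ℂ Ψ a) i := by
        rw [ha2]
        simp
      have h7 : (Finsupp.linearCombination ℂ Ψ a) i = ∑ z ∈ a.support, a z * ψ z i := by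
        rw [Finsupp.linearCombination_apply, Finsupp.sum]
        rw [BoundedContinuousFunction.coe_sum, Finset.sum_apply]
        apply Finset.sum_congr rfl
        intro z hz
        rw [← hΨ z (hA ((Finsupp.mem_supported ℂ a).1 ha1 hz)) i]
        rfl
      rw [← hΨ μ hμ i, ← h7, ← h6]
      exact (m.norm_coe_le_norm i).trans hm2.le
  · intro μ hμ ε hε
    have hc : ContinuousAt Ψ μ := (han μ hμ).continuousAt
    have h1 := Metric.continuousAt_iff'.1 hc ε hε
    filter_upwards [h1, hΩ.mem_nhds hμ] with z hz hzΩ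
    refine ⟨hzΩ, fun i => ?_⟩
    rw [← hΨ z hzΩ i, ← hΨ μ hμ i]
    rw [dist_eq_norm] at hz
    exact ((Ψ z - Ψ μ).norm_coe_le_norm i).trans hz.le

end Pool.Agent.U312.RT
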