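import Pool.Agent.U312.RT.Fn

/-!
Integrability of the majorant against the weight.
-/

set_option autoImplicit false
set_option linter.unusedSectionVars false

open Filter Topology Metric Set MeasureTheory

namespace Pool.Agent.U312.RT

lemma integrable_tsum' {μ : Measure ℝ} (a : ℕ → ℝ → ℝ) (hm : ∀ j, Measurable (a j))
    (h0 : ∀ j t, 0 ≤ a j t) (hi : ∀ j, Integrable (a j) μ) (hs : Summable fun j => ∫ t, a j t ∂μ)
    (hst : ∀ t, Summable fun j => a j t) : Integrable (fun t => ∑' j, a j t) μ := by
  have hmeas : Measurable (fun t => ∑' j, a j t) := by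
    apply measurable_of_tendsto_metrizable (f := fun n t => ∑ j ∈ Finset.range n, a j t)
    · intro n
      exact Finset.measurable_sum _ fun j _ => hm j
    · rw [tendsto_pi_nhds]
      intro t
      exact (hst t).hasSum.tendsto_sum_nat
  refine ⟨hmeas.aestronglyMeasurable, ?_⟩
  rw [hasFiniteIntegral_iff_ofReal (Eventually.of_forall fun t => tsum_nonneg fun j => h0 j t)]
  have h1 : ∀ t, ENNReal.ofReal (∑' j, a j t) = ∑' j, ENNReal.ofReal (a j t) := fun t =>
    ENNReal.ofReal_tsum_of_nonneg (fun j => h0 j t) (hst t)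
  simp only [h1]
  rw [lintegral_tsum fun j => (hm j).ennreal_ofReal.aemeasurable]
  have h2 : ∀ j, ∫⁻ t, ENNReal.ofReal (a j t) ∂μ = ENNReal.ofReal (∫ t, a j t ∂μ) := fun j =>
    (ofReal_integral_eq_lintegral_ofReal (hi j) (Eventually.of_forall fun t => h0 j t)).symm
  simp only [h2]
  rw [← ENNReal.ofReal_tsum_of_nonneg (fun j => integral_nonneg fun t => h0 j t) hs]
  exact ENNReal.ofReal_lt_top

lemma exp_int (a c : ℝ) (ha : 0 < a) :
    IntegrableOn (fun t : ℝ => Real.exp (-a * (t - c))) (Ioi c) ∧
    ∫ t in Ioi c, Real.exp (-a * (t - c)) = 1 / a := by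
  have h1 : ∀ t : ℝ, Real.exp (-a * (t - c)) = Real.exp (a * c) * Real.exp (-a * t) := by
    intro t; rw [← Real.exp_add]; congr 1; ring
  simp only [h1]
  have h2 := integrableOn_exp_mul_Ioi (a := -a) (by linarith) c
  refine ⟨h2.const_mul _, ?_⟩
  rw [integral_const_mul, integral_exp_mul_Ioi (by linarith) c]
  rw [mul_div_assoc', mul_neg, ← Real.exp_add]
  have h3 : a * c + -a * c = 0 := by ring
  rw [h3, Real.exp_zero]
  field_simp

section

variable (S : ℕ → St) (hinv : ∀ k, Inv k (S k)) (hrel : ∀ k, Rel k (S k) (S (k + 1)))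

lemma exp_quarter : Real.exp (1 / 4) ≤ 2 := by
  have h1 : Real.exp (1 / 4) ^ 4 = Real.exp 1 := by
    rw [← Real.exp_nat_mul]; congr 1; norm_num
  have h2 := Real.exp_one_lt_d9
  by_contra h
  push Not at h
  have h3 : (2:ℝ) ^ 4 < Real.exp (1 / 4) ^ 4 := by gcongr
  linarith

include hinv hrel in
lemma tm_wt (j : ℕ) (t : ℝ) (h : tt S j < t) : |tm S j t| * Real.exp (pp S t) ≤
    4 * cc j * (EE j * Real.exp (-(EE j - 1 / 4) * (t - tt S j)) +
      Real.exp (-(3 / 4) * (t - tt S j))) := by
  have hX : 2 ≤ EE j := EE_two j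
  have hc := cc_pos j
  set u := t - tt S j with hu
  have hu0 : 0 < u := by rw [hu]; linarith
  have hp : pp S t ≤ Real.log (EE j) + 1 / 4 + u / 4 := by
    have h1 : t = tt S j + u := by rw [hu]; ring
    have h2 := pp_add S hinv (tt S j) u
    rw [← h1] at h2
    have h3 := pp_tt S hinv hrel j
    have h4 := pp_le S hinv u
    rw [abs_of_pos hu0] at h4
    linarith
  have he : Real.exp (pp S t) ≤ 2 * EE j * Real.exp (u / 4) := by
    calc Real.exp (pp S t) ≤ Real.exp (Real.log (EE j) + 1 / 4 + u / 4) := Real.exp_le_exp.2 hp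
      _ = EE j * Real.exp (1 / 4) * Real.exp (u / 4) := by
          rw [Real.exp_add, Real.exp_add, Real.exp_log (by linarith)]
      _ ≤ EE j * 2 * Real.exp (u / 4) := by
          gcongr
          exact exp_quarter
      _ = _ := by ring
  have h1 : |tm S j t| ≤ cc j / (EE j - 1) * (EE j * Real.exp (-EE j * u) + Real.exp (-u)) := by
    unfold tm
    rw [if_pos h, abs_mul, abs_of_nonneg (div_nonneg hc.le (by linarith))]
    apply mul_le_mul_of_nonneg_left _ (div_nonneg hc.le (by linarith))
    refine (abs_sub _ _).trans ?_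
    rw [abs_of_nonneg (by positivity), abs_of_nonneg (by positivity)]
  have h2 : EE j / (EE j - 1) ≤ 2 := by
    rw [div_le_iff₀ (by linarith)]; linarith
  calc |tm S j t| * Real.exp (pp S t) ≤ (cc j / (EE j - 1) * (EE j * Real.exp (-EE j * u) +
        Real.exp (-u))) * (2 * EE j * Real.exp (u / 4)) := by
        apply mul_le_mul h1 he (Real.exp_pos _).le
        apply mul_nonneg (div_nonneg hc.le (by linarith)) (by positivity)
    _ = (EE j / (EE j - 1)) * (2 * cc j * (EE j * (Real.exp (-EE j * u) * Real.exp (u / 4)) +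
        Real.exp (-u) * Real.exp (u / 4))) := by ring
    _ ≤ 2 * (2 * cc j * (EE j * (Real.exp (-EE j * u) * Real.exp (u / 4)) +
        Real.exp (-u) * Real.exp (u / 4))) := by
        apply mul_le_mul_of_nonneg_right h2
        positivity
    _ = _ := by
        rw [← Real.exp_add, ← Real.exp_add]
        have e1 : -EE j * u + u / 4 = -(EE j - 1 / 4) * u := by ring
        have e2 : -u + u / 4 = -(3 / 4) * u := by ring
        rw [e1, e2]
        ring

include hinv hrel in
lemma tm_wt_int (j : ℕ) : IntegrableOn (fun t => |tm S j t| * Real.exp (pp S t)) (Ioi 0) ∧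
    ∫ t in Ioi (0:ℝ), |tm S j t| * Real.exp (pp S t) ≤ 16 * cc j := by
  have hX : 2 ≤ EE j := EE_two j
  have hc := cc_pos j
  have hT := tt_pos S hinv j
  set B : ℝ → ℝ := fun t => 4 * cc j * (EE j * Real.exp (-(EE j - 1 / 4) * (t - tt S j)) +
      Real.exp (-(3 / 4) * (t - tt S j))) with hB
  have i1 := exp_int (EE j - 1 / 4) (tt S j) (by linarith)
  have i2 := exp_int (3 / 4) (tt S j) (by norm_num)
  have hBi : IntegrableOn B (Ioi (tt S j)) := ((i1.1.const_mul _).add i2.1).const_mul _
  have hBv : ∫ t in Ioi (tt S j), B t ≤ 16 * cc j := by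
    rw [hB, integral_const_mul, integral_add (i1.1.const_mul _) i2.1, integral_const_mul, i1.2, i2.2]
    have h1 : EE j * (1 / (EE j - 1 / 4)) ≤ 2 := by
      rw [mul_one_div, div_le_iff₀ (by linarith)]; linarith
    have h2 : (1:ℝ) / (3 / 4) = 4 / 3 := by norm_num
    rw [h2]
    nlinarith
  have hle : ∀ t, |tm S j t| * Real.exp (pp S t) ≤ (Ioi (tt S j)).indicator B t := by
    intro t
    by_cases ht : tt S j < t
    · rw [indicator_of_mem (show t ∈ Ioi (tt S j) from ht)]
      exact tm_wt S hinv hrel j t ht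
    · rw [indicator_of_notMem (show t ∉ Ioi (tt S j) from ht), tm_zero S j t (not_lt.1 ht)]
      simp
  have hInd : Integrable ((Ioi (tt S j)).indicator B) := (integrable_indicator_iff measurableSet_Ioi).2 hBi
  have hmeas : Measurable (fun t => |tm S j t| * Real.exp (pp S t)) := by
    have h1 := tm_meas S j
    have h2 := pp_meas S hinv
    fun_prop
  have hint : IntegrableOn (fun t => |tm S j t| * Real.exp (pp S t)) (Ioi 0) := by
    apply Integrable.mono' hInd.integrableOn hmeas.aestronglyMeasurable
    filter_upwards with t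
    rw [Real.norm_of_nonneg (by positivity)]
    exact hle t
  refine ⟨hint, ?_⟩
  calc ∫ t in Ioi (0:ℝ), |tm S j t| * Real.exp (pp S t)
      ≤ ∫ t in Ioi (0:ℝ), (Ioi (tt S j)).indicator B t :=
        setIntegral_mono hint hInd.integrableOn hle
    _ = ∫ t in Ioi (tt S j), B t := by
        rw [setIntegral_indicator measurableSet_Ioi]
        congr 2
        rw [inter_eq_right]
        exact Ioi_subset_Ioi hT.le
    _ ≤ _ := hBv

include hinv hrel in
lemma DD_int : IntegrableOn (fun t => DD S t * Real.exp (pp S t)) (Ioi 0) := by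
  have h1 : (fun t => DD S t * Real.exp (pp S t)) = fun t => e0 t * Real.exp (pp S t) +
      ∑' j, |tm S j t| * Real.exp (pp S t) := by
    funext t
    unfold DD
    rw [add_mul, tsum_mul_right]
  rw [h1]
  have hpm := pp_meas S hinv
  have hem := e0_meas
  apply Integrable.add
  · have h2 := (exp_int (3 / 4) 0 (by norm_num)).1
    apply Integrable.mono' h2 (by fun_prop)
    filter_upwards [ae_restrict_mem measurableSet_Ioi] with t ht
    have ht0 : (0:ℝ) < t := ht
    rw [Real.norm_of_nonneg (mul_nonneg (e0_nonneg t) (Real.exp_pos _).le)]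
    unfold e0
    rw [if_pos ht0.le, ← Real.exp_add]
    apply Real.exp_le_exp.2
    have := pp_le S hinv t
    rw [abs_of_pos ht0] at this
    linarith
  · apply integrable_tsum'
    · intro j
      have := tm_meas S j
      fun_prop
    · intro j t; positivity
    · intro j
      exact (tm_wt_int S hinv hrel j).1
    · apply Summable.of_nonneg_of_le _ (fun j => (tm_wt_int S hinv hrel j).2)
        (cc_sum.summable.mul_left 16)
      intro j
      apply setIntegral_nonneg measurableSet_Ioi
      intro t _
      positivity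
    · intro t
      exact (tm_summable_abs S hinv hrel t).mul_right _

include hinv hrel in
lemma DD_meas : Measurable (DD S) := by
  have h : Measurable (fun t => ∑' j, |tm S j t|) := by
    apply measurable_of_tendsto_metrizable (f := fun n t => ∑ j ∈ Finset.range n, |tm S j t|)
    · intro n
      apply Finset.measurable_sum
      intro j _
      have := tm_meas S j
      fun_prop
    · rw [tendsto_pi_nhds]
      intro t
      exact (tm_summable_abs S hinv hrel t).hasSum.tendsto_sum_nat
  exact e0_meas.add h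

lemma DD_nonneg (t : ℝ) : 0 ≤ DD S t := add_nonneg (e0_nonneg t) (tsum_nonneg fun _ => abs_nonneg _)

include hinv hrel in
lemma DD_int1 : IntegrableOn (DD S) (Ioi 0) := by
  apply Integrable.mono' (DD_int S hinv hrel) (DD_meas S hinv hrel).aestronglyMeasurable
  filter_upwards with t
  rw [Real.norm_of_nonneg (DD_nonneg S t)]
  have h1 : 1 ≤ Real.exp (pp S t) := Real.one_le_exp (pp_nonneg S hinv t)
  nlinarith [DD_nonneg S t]

end

end Pool.Agent.U312.RT
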