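import Pool.Agent.U312.RT.Step

/-!
The recursive construction.
-/

set_option autoImplicit false

open Filter Topology Metric Set

namespace Pool.Agent.U312.RT

/-- coefficients -/
noncomputable def cc (k : ℕ) : ℝ := (1 / 2 : ℝ) ^ (k + 2)

/-- sizes -/
noncomputable def EE (k : ℕ) : ℝ := 2 ^ ((k + 5) ^ 2)

lemma cc_pos (k : ℕ) : 0 < cc k := by unfold cc; positivity

lemma cc_le (k : ℕ) : cc k ≤ 1 / 4 := by
  unfold cc
  calc (1 / 2 : ℝ) ^ (k + 2) ≤ (1 / 2) ^ 2 :=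
        pow_le_pow_of_le_one (by norm_num) (by norm_num) (by omega)
    _ = 1 / 4 := by norm_num

lemma EE_ge (k : ℕ) : 2 ^ 25 ≤ EE k := by
  unfold EE
  exact pow_le_pow_right₀ (by norm_num) (Nat.pow_le_pow_left (by omega : 5 ≤ k + 5) 2)

lemma EE_one (k : ℕ) : 1 < EE k := lt_of_lt_of_le (by norm_num) (EE_ge k)

lemma EE_two (k : ℕ) : 2 ≤ EE k := le_trans (by norm_num) (EE_ge k)

lemma EE_mono (k : ℕ) : EE k ≤ EE (k + 1) := by
  unfold EE
  exact pow_le_pow_right₀ (by norm_num) (Nat.pow_le_pow_left (by omega : k + 5 ≤ k + 1 + 5) 2)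

lemma EE_step (k : ℕ) : 6 * EE k ≤ cc (k + 1) * EE (k + 1) := by
  have h0 : cc (k + 1) * EE (k + 1) = EE k * 2 ^ (k + 8) := by
    unfold EE cc
    have h1 : (k + 1 + 5) ^ 2 = (k + 5) ^ 2 + (k + 1 + 2) + (k + 8) := by ring
    rw [h1, pow_add (2:ℝ) ((k + 5) ^ 2 + (k + 1 + 2)), pow_add (2:ℝ) ((k + 5) ^ 2), div_pow, one_pow]
    field_simp
  rw [h0]
  have h2 : (8:ℝ) ≤ 2 ^ (k + 8) := by
    calc (8:ℝ) = 2 ^ 3 := by norm_num
      _ ≤ 2 ^ (k + 8) := pow_le_pow_right₀ (by norm_num) (by omega)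
  have h4 : (0:ℝ) < EE k := by linarith [EE_one k]
  nlinarith

/-- state of the construction -/
structure St where
  /-- the analytic function -/
  P : ℂ → ℂ
  /-- the last lattice constant -/
  T : ℝ
  /-- the weight -/
  w : ℝ → ℝ
  /-- the exponential sum -/
  G : ℝ → ℂ

/-- slope -/
noncomputable def St.s (S : St) (k : ℕ) : ℝ := Real.log (EE k) / S.T

/-- invariants of the construction -/
structure Inv (k : ℕ) (S : St) : Prop where
  T1 : 1 ≤ S.T
  hP : DifferentiableOn ℂ S.P {z | z.re < 1}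
  hPb : ∀ z : ℂ, z.re < 1 →
    ‖S.P z - 1‖ ≤ (1 / 2 - (1 / 2) ^ (k + 2)) * Real.exp (max z.re 0 * S.T)
  hs : S.s k ≤ (1 / 8) * (1 / 2) ^ k
  hG : S.G ∈ VV (MM S.P (S.s k) (EE (k + 1)))
  hw : ∀ τ, 0 ≤ τ → 0 ≤ S.w τ
  hGb : ∀ τ, 0 ≤ τ → ‖S.G τ‖ ≤ (2 - (1 / 2) ^ k) * Real.exp (S.w τ + S.s k * τ)

/-- the relation between two successive states -/
structure Rel (k : ℕ) (S S' : St) : Prop where
  m : ∃ m : ℕ, S'.T = m * S.T
  T4 : 4 * S.T ≤ S'.T
  s1 : S'.s (k + 1) * S.T ≤ 1 / 8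
  P : S'.P = nP S.P (cc (k + 1)) (EE (k + 1)) S'.T
  w : S'.w = fun τ => S.w τ + S.s k * dd S'.T τ
  G : ∀ τ, 0 ≤ τ → ‖S'.G τ - (if τ < S'.T / 2 then S.G τ else 0)‖ ≤
    (1 / 2) ^ (k + 4) * Real.exp (S.s k * dd S'.T τ + S'.s (k + 1) * τ)

lemma dd_nonneg (T τ : ℝ) : 0 ≤ dd T τ := abs_nonneg _

lemma dd_small (T τ : ℝ) (hT : 0 < T) (h0 : 0 ≤ τ) (h1 : τ < T / 2) : dd T τ = τ := by
  unfold dd
  have h2 : round (τ / T) = 0 := by
    rw [round_eq, Int.floor_eq_zero_iff]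
    constructor
    · positivity
    · have : τ / T < 1 / 2 := by rw [div_lt_iff₀ hT]; linarith
      linarith
  rw [h2]
  simp [abs_of_nonneg h0]

lemma eta_le (z : ℂ) (X : ℝ) (hX : 2 ≤ X) (hz : z.re < 1) : ‖z / (z - X)‖ ≤ 1 := by
  have h1 : z - X ≠ 0 := by
    intro h
    have : z = X := sub_eq_zero.1 h
    rw [this] at hz
    simp at hz
    linarith
  rw [norm_div, div_le_one (norm_pos_iff.2 h1)]
  apply (sq_le_sq₀ (norm_nonneg _) (norm_nonneg _)).1
  rw [Complex.sq_norm, Complex.sq_norm, Complex.normSq_apply, Complex.normSq_apply]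
  simp only [Complex.sub_re, Complex.sub_im, Complex.ofReal_re, Complex.ofReal_im]
  nlinarith

lemma nP_diff (P : ℂ → ℂ) (c X T : ℝ) (hX : 2 ≤ X) (hP : DifferentiableOn ℂ P {z | z.re < 1}) :
    DifferentiableOn ℂ (nP P c X T) {z | z.re < 1} := by
  unfold nP
  apply hP.add
  apply DifferentiableOn.mul
  · apply DifferentiableOn.const_mul
    apply DifferentiableOn.div differentiableOn_id (by fun_prop)
    intro z hz h
    have : z = X := sub_eq_zero.1 h
    rw [this] at hz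
    simp only [mem_ofPred_eq, Complex.ofReal_re] at hz
    linarith
  · fun_prop

lemma nP_bound (P : ℂ → ℂ) (c X T T' A : ℝ) (hX : 2 ≤ X) (hTT : T ≤ T') (hT' : 0 ≤ T') (hc : 0 ≤ c)
    (hA : 0 ≤ A) (z : ℂ) (hz : z.re < 1)
    (hP : ‖P z - 1‖ ≤ A * Real.exp (max z.re 0 * T)) :
    ‖nP P c X T' z - 1‖ ≤ (A + c) * Real.exp (max z.re 0 * T') := by
  have h1 : nP P c X T' z - 1 = (P z - 1) + c * (z / (z - X)) * Complex.exp (z * T') := by
    unfold nP; ring
  rw [h1]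
  refine (norm_add_le _ _).trans ?_
  rw [add_mul]
  have h0 : 0 ≤ max z.re 0 := le_max_right _ _
  apply add_le_add
  · refine hP.trans ?_
    gcongr
  · rw [norm_mul, norm_mul, Complex.norm_real, Real.norm_of_nonneg hc, Complex.norm_exp]
    have h2 := eta_le z X hX hz
    have h3 : (z * T').re ≤ max z.re 0 * T' := by
      simp only [Complex.mul_re, Complex.ofReal_re, Complex.ofReal_im, mul_zero, sub_zero]
      exact mul_le_mul_of_nonneg_right (le_max_left _ _) hT'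
    calc c * ‖z / (z - X)‖ * Real.exp (z * T').re ≤ c * 1 * Real.exp (max z.re 0 * T') := by gcongr
      _ = _ := by rw [mul_one]

/-- existence of a first exponent -/
theorem base_zero : ∀ᶠ T' : ℝ in atTop, ∃ μ, μ ∈ MM (nP (fun _ => 1) (cc 0) (EE 0) T')
    (Real.log (EE 0) / T') (EE 1) := by
  set c := cc 0 with hc
  have hc4 : c = 1 / 4 := by rw [hc]; unfold cc; norm_num
  set X := EE 0 with hX
  have hX2 : 2 ≤ X := EE_two 0
  have hX25 : 2 ^ 25 ≤ X := EE_ge 0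
  have hXX : X ≤ EE 1 := EE_mono 0
  set Q : ℂ → ℂ := fun z => -1 / (c * (z / (z - X))) with hQ
  set z₀ : ℂ := ((EE 1 + 1 : ℝ) : ℂ) * Complex.I with hz₀
  have hre : z₀.re = 0 := by rw [hz₀]; simp
  have him : z₀.im = EE 1 + 1 := by rw [hz₀]; simp
  have hz0 : z₀ ≠ 0 := by
    intro h; rw [h] at him; simp at him; linarith
  have hzX : z₀ - X ≠ 0 := by
    intro h
    have : z₀ = X := sub_eq_zero.1 h
    rw [this] at him; simp at him; linarith
  have hcc : (c:ℂ) ≠ 0 := by rw [hc4]; norm_num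
  have hden : (c:ℂ) * (z₀ / (z₀ - X)) ≠ 0 := mul_ne_zero hcc (div_ne_zero hz0 hzX)
  have hQan : AnalyticAt ℂ Q z₀ := by
    have h1 : AnalyticAt ℂ (fun z : ℂ => z / (z - X)) z₀ :=
      AnalyticAt.fun_div analyticAt_id (analyticAt_id.sub analyticAt_const) hzX
    have h2 : AnalyticAt ℂ (fun z : ℂ => (c:ℂ) * (z / (z - X))) z₀ := analyticAt_const.mul h1
    exact AnalyticAt.fun_div analyticAt_const h2 hden
  have hu : ‖z₀ / (z₀ - X)‖ ≤ 1 := eta_le z₀ X hX2 (by rw [hre]; norm_num)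
  have hl : 1 / 2 ≤ ‖z₀ / (z₀ - X)‖ := by
    rw [norm_div, le_div_iff₀ (norm_pos_iff.2 hzX)]
    have h3 : ‖z₀ - X‖ ≤ ‖z₀‖ + X := by
      refine (norm_sub_le _ _).trans ?_
      rw [Complex.norm_real, Real.norm_of_nonneg (by linarith)]
    have h4 : z₀.im ≤ ‖z₀‖ := (le_abs_self _).trans (Complex.abs_im_le_norm z₀)
    linarith
  have hQn : ‖Q z₀‖ = 1 / (c * ‖z₀ / (z₀ - X)‖) := by
    rw [hQ]
    simp only
    rw [norm_div, norm_neg, norm_one, norm_mul, Complex.norm_real,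
      Real.norm_of_nonneg (by rw [hc4]; norm_num)]
  have hQl : 1 < ‖Q z₀‖ := by
    rw [hQn, hc4, lt_div_iff₀ (by positivity)]
    linarith
  have hQu : ‖Q z₀‖ < X := by
    rw [hQn, hc4, div_lt_iff₀ (by positivity)]
    nlinarith
  have hQ0 : Q z₀ ≠ 0 := by
    intro h; rw [h, norm_zero] at hQl; linarith
  have e1 : ∀ᶠ w in 𝓝 z₀, 1 < ‖Q w‖ := hQan.continuousAt.norm.eventually (lt_mem_nhds hQl)
  have e2 : ∀ᶠ w in 𝓝 z₀, ‖Q w‖ < X := hQan.continuousAt.norm.eventually (gt_mem_nhds hQu)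
  have e3 : ∀ᶠ w : ℂ in 𝓝 z₀, EE 1 < w.im :=
    Complex.continuous_im.continuousAt.eventually (lt_mem_nhds (by rw [him]; linarith))
  obtain ⟨r, hr0, hr⟩ := Metric.nhds_basis_closedBall.eventually_iff.1 (e1.and (e2.and e3))
  obtain ⟨T₀, hT₀⟩ := zero_near Q z₀ hre hQan hQ0 r hr0
  filter_upwards [eventually_ge_atTop T₀, eventually_gt_atTop 0] with T' hT' hT'0
  obtain ⟨w, hw1, hw2⟩ := hT₀ T' hT'
  obtain ⟨h1, h2, h3⟩ := hr (mem_closedBall_iff_norm.2 hw1)
  have hw0 : w ≠ 0 := by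
    intro h; rw [h] at h3; simp at h3; linarith
  have hwX : w - X ≠ 0 := by
    intro h
    have : w = X := sub_eq_zero.1 h
    rw [this] at h3; simp at h3; linarith
  refine ⟨w, ?_, ?_, h3⟩
  · unfold nP
    rw [hw2, hQ]
    simp only
    rw [mul_div_cancel₀ _ (mul_ne_zero hcc (div_ne_zero hw0 hwX))]
    ring
  · have h6 : ‖Q w‖ = Real.exp (w.re * T') := by
      rw [← hw2, Complex.norm_exp]
      simp
    rw [h6] at h1 h2
    have h9 : w.re * T' < Real.log X := by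
      rw [← Real.exp_lt_exp, Real.exp_log (by linarith)]; exact h2
    have h10 : 0 < w.re * T' := by
      rw [← Real.exp_lt_exp, Real.exp_zero]; exact h1
    have h11 : 0 < Real.log X := Real.log_pos (by linarith)
    rw [abs_lt, ← neg_div]
    constructor
    · rw [div_lt_iff₀ hT'0]; linarith
    · rw [lt_div_iff₀ hT'0]; exact h9

lemma tend_log (a : ℝ) : Tendsto (fun T' : ℝ => a / T') atTop (𝓝 0) :=
  tendsto_const_nhds.div_atTop tendsto_id

theorem base : ∃ S : St, Inv 0 S ∧ S.w = (fun _ => 0) ∧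
    S.P = nP (fun _ => 1) (cc 0) (EE 0) S.T ∧ ∃ μ : ℂ, S.G = ef μ ∧ |μ.re| < 1 / 8 := by
  have h1 : ∀ᶠ T' : ℝ in atTop, Real.log (EE 0) / T' ≤ 1 / 8 :=
    ((tend_log _).eventually (gt_mem_nhds (by norm_num : (0:ℝ) < 1 / 8))).mono fun _ h => le_of_lt h
  obtain ⟨T, ⟨μ, hμ⟩, hT1, hT2⟩ := (base_zero.and (h1.and (eventually_ge_atTop 1))).exists
  have hX2 : 2 ≤ EE 0 := EE_two 0
  refine ⟨⟨nP (fun _ => 1) (cc 0) (EE 0) T, T, fun _ => 0, ef μ⟩, ?_, rfl, rfl, μ, rfl, ?_⟩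
  · refine ⟨hT2, nP_diff _ _ _ _ hX2 (differentiableOn_const _), ?_, ?_, ?_, fun _ _ => le_rfl, ?_⟩
    · intro z hz
      have := nP_bound (fun _ => 1) (cc 0) (EE 0) 0 T 0 hX2 (by linarith) (by linarith)
        (cc_pos 0).le le_rfl z hz (by simp)
      refine this.trans (le_of_eq ?_)
      congr 1
      unfold cc; norm_num
    · simpa [St.s] using hT1
    · exact Submodule.subset_span ⟨μ, hμ, rfl⟩
    · intro τ hτ
      simp only [ef, Complex.norm_exp, St.s, pow_zero]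
      have h2 : (μ * τ).re = μ.re * τ := by simp
      rw [h2]
      have h3 : μ.re ≤ Real.log (EE 0) / T := (le_abs_self _).trans hμ.2.1.le
      have h4 : μ.re * τ ≤ 0 + Real.log (EE 0) / T * τ := by
        rw [zero_add]; gcongr
      calc Real.exp (μ.re * τ) ≤ Real.exp (0 + Real.log (EE 0) / T * τ) := Real.exp_le_exp.2 h4
        _ = _ := by norm_num
  · exact lt_of_lt_of_le hμ.2.1 hT1

theorem step (k : ℕ) (S : St) (hS : Inv k S) : ∃ S' : St, Inv (k + 1) S' ∧ Rel k S S' := by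
  have hT0 : 0 < S.T := by linarith [hS.T1]
  have hs1 : Real.log (EE k) / S.T ≤ 1 := by
    have := hS.hs
    unfold St.s at this
    have h2 : (1 / 2 : ℝ) ^ k ≤ 1 := pow_le_one₀ (by norm_num) (by norm_num)
    linarith
  have hPb : ∀ z : ℂ, z.re < 1 → ‖S.P z - 1‖ ≤ (1 / 2) * Real.exp (max z.re 0 * S.T) := by
    intro z hz
    refine (hS.hPb z hz).trans ?_
    gcongr
    have : (0:ℝ) < (1 / 2) ^ (k + 2) := by positivity
    linarith
  have h := step2 S.P S.T (EE k) (cc (k + 1)) (EE (k + 1)) (EE (k + 1)) (EE (k + 1 + 1)) hT0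
    (EE_one k) (cc_pos _) ((cc_le _).trans (by norm_num)) (EE_one _) (EE_step k) (EE_two _)
    (EE_mono _) hS.hP hPb hs1 S.G hS.hG ((1 / 2) ^ (k + 4)) (by positivity)
  have hsk0 : 0 < S.s k := div_pos (Real.log_pos (EE_one k)) hT0
  have e1 : ∀ᶠ T' : ℝ in atTop, Real.log (EE (k + 1)) / T' ≤ S.s k / 2 :=
    ((tend_log _).eventually (gt_mem_nhds (by positivity : (0:ℝ) < S.s k / 2))).mono
      fun _ h => le_of_lt h
  have e2 : ∀ᶠ T' : ℝ in atTop, Real.log (EE (k + 1)) / T' ≤ 1 / (8 * S.T) :=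
    ((tend_log _).eventually (gt_mem_nhds (by positivity : (0:ℝ) < 1 / (8 * S.T)))).mono
      fun _ h => le_of_lt h
  have htm : Tendsto (fun m : ℕ => (m:ℝ) * S.T) atTop atTop :=
    tendsto_natCast_atTop_atTop.atTop_mul_const hT0
  obtain ⟨m, ⟨G', hG', hGG⟩, h1, h2, h3⟩ :=
    (htm.eventually (h.and (e1.and (e2.and (eventually_ge_atTop (4 * S.T)))))).exists
  set T' : ℝ := m * S.T with hT'
  have hT'0 : 0 < T' := by linarith
  refine ⟨⟨nP S.P (cc (k + 1)) (EE (k + 1)) T', T', fun τ => S.w τ + S.s k * dd T' τ, G'⟩, ?_, ?_⟩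
  · refine ⟨?_, nP_diff _ _ _ _ (EE_two _) hS.hP, ?_, ?_, hG', ?_, ?_⟩
    · linarith [hS.T1]
    · intro z hz
      have h4 : (0:ℝ) ≤ 1 / 2 - (1 / 2) ^ (k + 2) := by
        have : (1 / 2 : ℝ) ^ (k + 2) ≤ (1 / 2) ^ 1 :=
          pow_le_pow_of_le_one (by norm_num) (by norm_num) (by omega)
        linarith
      have := nP_bound S.P (cc (k + 1)) (EE (k + 1)) S.T T' _ (EE_two _) (by linarith)
        (by linarith) (cc_pos _).le h4 z hz (hS.hPb z hz)
      refine this.trans (le_of_eq ?_)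
      congr 1
      unfold cc
      ring
    · show Real.log (EE (k + 1)) / T' ≤ _
      refine h1.trans ?_
      have := hS.hs
      rw [pow_succ]
      linarith
    · intro τ hτ
      exact add_nonneg (hS.hw τ hτ) (mul_nonneg hsk0.le (dd_nonneg _ _))
    · intro τ hτ
      show ‖G' τ‖ ≤ (2 - (1 / 2) ^ (k + 1)) * Real.exp (S.w τ + S.s k * dd T' τ +
        Real.log (EE (k + 1)) / T' * τ)
      have h5 := hGG τ hτ
      have h6 : ‖G' τ‖ ≤ ‖G' τ - (if τ < T' / 2 then S.G τ else 0)‖ +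
          ‖(if τ < T' / 2 then S.G τ else 0)‖ := by
        have := norm_add_le (G' τ - (if τ < T' / 2 then S.G τ else 0))
          (if τ < T' / 2 then S.G τ else 0)
        simpa using this
      have h7 : Real.exp (Real.log (EE k) / S.T * dd T' τ + Real.log (EE (k + 1)) / T' * τ) ≤
          Real.exp (S.w τ + S.s k * dd T' τ + Real.log (EE (k + 1)) / T' * τ) := by
        apply Real.exp_le_exp.2
        have := hS.hw τ hτ
        show S.s k * dd T' τ + _ ≤ _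
        linarith
      have h8 : ‖(if τ < T' / 2 then S.G τ else 0)‖ ≤ (2 - (1 / 2) ^ k) *
          Real.exp (S.w τ + S.s k * dd T' τ + Real.log (EE (k + 1)) / T' * τ) := by
        have h10 : (1 / 2 : ℝ) ^ k ≤ 1 := pow_le_one₀ (by norm_num) (by norm_num)
        split_ifs with hif
        · refine (hS.hGb τ hτ).trans ?_
          have h9 : 0 ≤ Real.log (EE (k + 1)) / T' * τ :=
            mul_nonneg (div_nonneg (Real.log_pos (EE_one _)).le hT'0.le) hτ
          apply mul_le_mul_of_nonneg_left _ (by linarith)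
          apply Real.exp_le_exp.2
          rw [dd_small T' τ hT'0 hτ hif]
          linarith
        · rw [norm_zero]
          apply mul_nonneg (by linarith) (Real.exp_pos _).le
      have h11 : (1 / 2 : ℝ) ^ (k + 4) * Real.exp (Real.log (EE k) / S.T * dd T' τ +
          Real.log (EE (k + 1)) / T' * τ) ≤ (1 / 2 : ℝ) ^ (k + 4) *
          Real.exp (S.w τ + S.s k * dd T' τ + Real.log (EE (k + 1)) / T' * τ) := by gcongr
      have h12 : (2 - (1 / 2) ^ k) + (1 / 2 : ℝ) ^ (k + 4) ≤ (2 - (1 / 2 : ℝ) ^ (k + 1)) := by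
        rw [pow_add, pow_add]
        have : (0:ℝ) < (1 / 2) ^ k := by positivity
        norm_num
        linarith
      have h13 : 0 < Real.exp (S.w τ + S.s k * dd T' τ + Real.log (EE (k + 1)) / T' * τ) :=
        Real.exp_pos _
      nlinarith
  · refine ⟨⟨m, rfl⟩, h3, ?_, rfl, rfl, hGG⟩
    show Real.log (EE (k + 1)) / T' * S.T ≤ 1 / 8
    calc Real.log (EE (k + 1)) / T' * S.T ≤ 1 / (8 * S.T) * S.T := by gcongr
      _ = 1 / 8 := by field_simp

theorem exists_seq : ∃ S : ℕ → St, (∀ k, Inv k (S k)) ∧ (∀ k, Rel k (S k) (S (k + 1))) ∧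
    (S 0).w = (fun _ => 0) ∧ (S 0).P = nP (fun _ => 1) (cc 0) (EE 0) (S 0).T ∧
    ∃ μ : ℂ, (S 0).G = ef μ ∧ |μ.re| < 1 / 8 := by
  classical
  obtain ⟨S0, h0, h1, h2, h3⟩ := base
  choose! f hf using step
  let g : (k : ℕ) → {S : St // Inv k S} := fun k => Nat.rec (motive := fun k => {S : St // Inv k S})
    ⟨S0, h0⟩ (fun k S => ⟨f k S.1, (hf k S.1 S.2).1⟩) k
  refine ⟨fun k => (g k).1, fun k => (g k).2, fun k => ?_, h1, h2, h3⟩
  exact (hf k (g k).1 (g k).2).2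

end Pool.Agent.U312.RT
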