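import Mathlib

/-!
Solutions of `exp (z T) = Q z` near a point of the imaginary axis, for all large `T`.
-/

set_option autoImplicit false

open Filter Topology Metric Set

namespace Pool.Agent.U312.RT

theorem zero_near (Q : ℂ → ℂ) (z₀ : ℂ) (hz : z₀.re = 0) (hQ : AnalyticAt ℂ Q z₀)
    (h0 : Q z₀ ≠ 0) (ε : ℝ) (hε : 0 < ε) :
    ∃ T₀ : ℝ, ∀ T : ℝ, T₀ ≤ T → ∃ z : ℂ, ‖z - z₀‖ ≤ ε ∧ Complex.exp (z * T) = Q z := by
  set L : ℂ → ℂ := fun z => Complex.log (Q z / Q z₀) + Complex.log (Q z₀) with hL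
  have hLan : AnalyticAt ℂ L z₀ := by
    apply AnalyticAt.add _ analyticAt_const
    apply AnalyticAt.clog
    · exact hQ.div_const
    · rw [div_self h0]
      exact Complex.one_mem_slitPlane
  obtain ⟨K, t, ht, hK⟩ := (hLan.contDiffAt (n := 1)).exists_lipschitzOnWith
  have hne : ∀ᶠ z in 𝓝 z₀, Q z ≠ 0 := hQ.continuousAt.eventually_ne h0
  obtain ⟨r', hr', hball⟩ := Metric.mem_nhds_iff.1 (Filter.inter_mem ht hne)
  set r : ℝ := min ε (r' / 2) with hr
  have hr0 : 0 < r := by positivity
  have hsub : closedBall z₀ r ⊆ t ∩ {z | Q z ≠ 0} := by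
    refine (closedBall_subset_ball ?_).trans hball
    have : r ≤ r' / 2 := min_le_right _ _
    linarith
  have hexpL : ∀ z ∈ closedBall z₀ r, Complex.exp (L z) = Q z := by
    intro z hz
    have h1 : Q z ≠ 0 := (hsub hz).2
    rw [hL]
    simp only
    rw [Complex.exp_add, Complex.exp_log (div_ne_zero h1 h0), Complex.exp_log h0,
      div_mul_cancel₀ _ h0]
  have hLip : LipschitzOnWith K L (closedBall z₀ r) := hK.mono (hsub.trans inter_subset_left)
  set B : ℝ := ‖L z₀‖ + K * r with hB
  have hBb : ∀ z ∈ closedBall z₀ r, ‖L z‖ ≤ B := by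
    intro z hz
    have h1 := hLip.dist_le_mul z hz z₀ (mem_closedBall_self hr0.le)
    rw [dist_eq_norm] at h1
    rw [mem_closedBall] at hz
    have h2 : ‖L z‖ ≤ ‖L z - L z₀‖ + ‖L z₀‖ := by
      have := norm_add_le (L z - L z₀) (L z₀)
      simpa using this
    have h3 : (K:ℝ) * dist z z₀ ≤ K * r := by gcongr
    rw [hB]
    linarith
  have hB0 : 0 ≤ B := by positivity
  refine ⟨max 1 (max ((B + 2 * Real.pi) / r) (2 * K)), ?_⟩
  intro T hT
  have hT1 : 1 ≤ T := (le_max_left _ _).trans hT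
  have hT2 : (B + 2 * Real.pi) / r ≤ T := ((le_max_left _ _).trans (le_max_right _ _)).trans hT
  have hT3 : 2 * (K:ℝ) ≤ T := ((le_max_right _ _).trans (le_max_right _ _)).trans hT
  have hT0 : 0 < T := by linarith
  have hTc : (T:ℂ) ≠ 0 := by exact_mod_cast hT0.ne'
  set m : ℤ := ⌊T * z₀.im / (2 * Real.pi)⌋ with hm
  have hm1 : |2 * Real.pi * m - T * z₀.im| ≤ 2 * Real.pi := by
    have h1 := Int.floor_le (T * z₀.im / (2 * Real.pi))
    have h2 := Int.lt_floor_add_one (T * z₀.im / (2 * Real.pi))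
    rw [← hm] at h1 h2
    have hpi : 0 < 2 * Real.pi := by positivity
    rw [le_div_iff₀ hpi] at h1
    rw [div_lt_iff₀ hpi] at h2
    rw [abs_le]
    constructor <;> nlinarith
  set F : ℂ → ℂ := fun z => (L z + 2 * Real.pi * m * Complex.I) / T with hF
  have hz₀ : z₀ = z₀.im * Complex.I := by
    apply Complex.ext <;> simp [hz]
  have hmaps : MapsTo F (closedBall z₀ r) (closedBall z₀ r) := by
    intro z hz
    rw [mem_closedBall, dist_eq_norm]
    have h1 : F z - z₀ = (L z + ((2 * Real.pi * m - T * z₀.im : ℝ) : ℂ) * Complex.I) / T := by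
      rw [hF]
      simp only
      rw [div_sub' hTc]
      congr 1
      nth_rw 1 [hz₀]
      push_cast
      ring
    rw [h1, norm_div, Complex.norm_real, Real.norm_of_nonneg hT0.le, div_le_iff₀ hT0]
    have h2 : ‖L z + ((2 * Real.pi * m - T * z₀.im : ℝ) : ℂ) * Complex.I‖ ≤ B + 2 * Real.pi := by
      refine (norm_add_le _ _).trans ?_
      rw [norm_mul, Complex.norm_I, mul_one, Complex.norm_real, Real.norm_eq_abs]
      exact add_le_add (hBb z hz) hm1
    rw [div_le_iff₀ hr0] at hT2
    linarith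
  have hcontr : ContractingWith (1/2 : NNReal) (hmaps.restrict F _ _) := by
    constructor
    · rw [← NNReal.coe_lt_coe]; norm_num
    · apply LipschitzWith.of_dist_le_mul
      rintro ⟨x, hx⟩ ⟨y, hy⟩
      rw [Subtype.dist_eq, Subtype.dist_eq]
      simp only [MapsTo.val_restrict_apply]
      rw [dist_eq_norm]
      have h1 : F x - F y = (L x - L y) / T := by
        rw [hF]; simp only; ring
      rw [h1, norm_div, Complex.norm_real, Real.norm_of_nonneg hT0.le, ← dist_eq_norm,
        div_le_iff₀ hT0]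
      have h2 := hLip.dist_le_mul x hx y hy
      have h3 : (K:ℝ) * dist x y ≤ T / 2 * dist x y := by
        apply mul_le_mul_of_nonneg_right _ dist_nonneg
        linarith
      push_cast
      nlinarith [dist_nonneg (x := x) (y := y)]
  obtain ⟨y, hy, hfix, -⟩ := hcontr.exists_fixedPoint' (isClosed_closedBall.isComplete) hmaps
    (mem_closedBall_self hr0.le) (edist_ne_top _ _)
  refine ⟨y, ?_, ?_⟩
  · rw [mem_closedBall, dist_eq_norm] at hy
    exact hy.trans (min_le_left _ _)
  · have h1 : y * T = L y + m * (2 * Real.pi * Complex.I) := by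
      have h2 : F y = y := hfix
      rw [hF] at h2
      simp only at h2
      rw [div_eq_iff hTc] at h2
      rw [← h2]
      ring
    rw [h1, Complex.exp_add, hexpL y hy, Complex.exp_int_mul_two_pi_mul_I, mul_one]

end Pool.Agent.U312.RT
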