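import Pool.Agent.U312.RT.Hol
import Pool.Agent.U312.RT.Zero

/-!
The approximation step.
-/

set_option autoImplicit false

open Filter Topology Metric Set

namespace Pool.Agent.U312.RT

/-- distance to the lattice `T ℤ` -/
noncomputable def dd (T τ : ℝ) : ℝ := |τ - T * round (τ / T)|

/-- the exponential with exponent `z` -/
noncomputable def ef (z : ℂ) : ℝ → ℂ := fun τ => Complex.exp (z * τ)

/-- finite linear combinations of exponentials with exponents in `M` -/
noncomputable def VV (M : Set ℂ) : Submodule ℂ (ℝ → ℂ) := Submodule.span ℂ (ef '' M)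

/-- admissible exponents -/
def MM (P : ℂ → ℂ) (s X : ℝ) : Set ℂ := {z | P z = 0 ∧ |z.re| < s ∧ X < z.im}

/-- the next function `P` -/
noncomputable def nP (P : ℂ → ℂ) (c X T : ℝ) : ℂ → ℂ :=
  fun z => P z + c * (z / (z - X)) * Complex.exp (z * T)

theorem step1 (P : ℂ → ℂ) (T E c E' X' X'' : ℝ) (hT : 0 < T) (hE : 1 < E) (hc0 : 0 < c)
    (hc1 : c ≤ 1 / 2) (hE' : 1 < E') (hEE : 6 * E ≤ c * E') (hX : 2 ≤ X') (hXX : X' ≤ X'')
    (hP : DifferentiableOn ℂ P {z | z.re < 1})
    (hPb : ∀ z : ℂ, z.re < 1 → ‖P z - 1‖ ≤ (1 / 2) * Real.exp (max z.re 0 * T))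
    (hs : Real.log E / T ≤ 1)
    (μ : ℂ) (hμ : μ ∈ MM P (Real.log E / T) X') (ε : ℝ) (hε : 0 < ε) :
    ∀ᶠ T' : ℝ in atTop, ∃ G' ∈ VV (MM (nP P c X' T') (Real.log E' / T') X''), ∀ τ : ℝ, 0 ≤ τ →
      ‖G' τ - (if τ < T' / 2 then ef μ τ else 0)‖ ≤
        ε * Real.exp (Real.log E / T * dd T' τ + Real.log E' / T' * τ) := by
  classical
  obtain ⟨hμP, hμre, hμim⟩ := hμ
  set s : ℝ := Real.log E / T with hs_def
  set ρ : ℝ := |μ.re| + (s - |μ.re|) / 3 with hρ
  set σ : ℝ := |μ.re| + 2 * (s - |μ.re|) / 3 with hσ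
  have hρ1 : |μ.re| < ρ := by rw [hρ]; linarith
  have hρσ : ρ < σ := by rw [hρ, hσ]; linarith
  have hσs : σ < s := by rw [hσ]; linarith
  have hρ0 : 0 < ρ := (abs_nonneg _).trans_lt hρ1
  have hlE : s * T = Real.log E := by rw [hs_def]; field_simp
  have hlE' : 0 < Real.log E' := Real.log_pos hE'
  set Q : ℂ → ℂ := fun z => -P z / (c * (z / (z - X'))) with hQ
  set Ω : Set ℂ := {z | z.re < ρ} ∩ ({z | -ρ < z.re} ∩ {z | X' < z.im}) with hΩ
  have hΩo : IsOpen Ω := by
    apply IsOpen.inter (isOpen_lt Complex.continuous_re continuous_const)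
    exact IsOpen.inter (isOpen_lt continuous_const Complex.continuous_re)
      (isOpen_lt continuous_const Complex.continuous_im)
  have hΩc : IsPreconnected Ω := by
    apply Convex.isPreconnected
    exact (convex_halfSpace_re_lt ρ).inter ((convex_halfSpace_re_gt (-ρ)).inter
      (convex_halfSpace_im_gt X'))
  have hne : ∀ z ∈ Ω, z ≠ 0 ∧ z - X' ≠ 0 := by
    rintro z ⟨-, -, h3⟩
    simp only [mem_ofPred_eq] at h3
    constructor
    · intro h; rw [h] at h3; simp at h3; linarith
    · intro h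
      have h4 : z.im = 0 := by
        have : z = X' := sub_eq_zero.1 h
        rw [this]; simp
      linarith
  have hre1 : ∀ z ∈ Ω, z.re < 1 := by
    rintro z ⟨h1, -, -⟩
    simp only [mem_ofPred_eq] at h1
    linarith
  have hηl : ∀ z ∈ Ω, 1 / 2 ≤ ‖z / (z - X')‖ := by
    intro z hz
    have h1 := hne z hz
    have h2 : X' < z.im := hz.2.2
    rw [norm_div, le_div_iff₀ (norm_pos_iff.2 h1.2)]
    have h3 : ‖z - X'‖ ≤ ‖z‖ + X' := by
      refine (norm_sub_le _ _).trans ?_
      rw [Complex.norm_real, Real.norm_of_nonneg (by linarith)]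
    have h4 : z.im ≤ ‖z‖ := (le_abs_self _).trans (Complex.abs_im_le_norm z)
    linarith
  have hden : ∀ z ∈ Ω, (c:ℂ) * (z / (z - X')) ≠ 0 := by
    intro z hz
    have h1 := hne z hz
    exact mul_ne_zero (by exact_mod_cast hc0.ne') (div_ne_zero h1.1 h1.2)
  have hQb : ∀ z ∈ Ω, ‖Q z‖ ≤ E' / 2 := by
    intro z hz
    have h1 := hPb z (hre1 z hz)
    have h2 : max z.re 0 * T ≤ Real.log E := by
      rw [← hlE]
      apply mul_le_mul_of_nonneg_right _ hT.le
      apply max_le _ (by linarith)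
      have : z.re < ρ := hz.1
      linarith
    have h3 : Real.exp (max z.re 0 * T) ≤ E := by
      calc Real.exp (max z.re 0 * T) ≤ Real.exp (Real.log E) := Real.exp_le_exp.2 h2
        _ = E := Real.exp_log (by linarith)
    have h4 : ‖P z‖ ≤ 1 + E / 2 := by
      have h5 : ‖P z‖ ≤ ‖P z - 1‖ + ‖(1:ℂ)‖ := by
        have := norm_add_le (P z - 1) 1
        simpa using this
      rw [norm_one] at h5
      linarith
    rw [hQ]
    simp only
    rw [norm_div, norm_neg, norm_mul, Complex.norm_real, Real.norm_of_nonneg hc0.le,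
      div_le_iff₀ (mul_pos hc0 (lt_of_lt_of_le (by norm_num) (hηl z hz)))]
    have h6 := hηl z hz
    have h7 : E' / 2 * (c * (1 / 2)) ≤ E' / 2 * (c * ‖z / (z - X')‖) := by gcongr
    nlinarith
  have hQd : DifferentiableOn ℂ Q Ω := by
    apply DifferentiableOn.div
    · exact (hP.mono (fun z hz => hre1 z hz)).neg
    · apply DifferentiableOn.const_mul
      apply DifferentiableOn.div differentiableOn_id
      · fun_prop
      · intro z hz; exact (hne z hz).2
    · exact hden
  have hμΩ : μ ∈ Ω := by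
    have := abs_lt.1 hρ1
    exact ⟨this.2, this.1, hμim⟩
  set ψ : ℂ → ℕ × ℝ → ℂ := fun z i => (Q z / E') ^ i.1 * Complex.exp (z * i.2 - σ * |i.2|) with hψ
  have hE'c : (E':ℂ) ≠ 0 := by
    have : E' ≠ 0 := by linarith
    exact_mod_cast this
  have hψd : ∀ i, DifferentiableOn ℂ (fun z => ψ z i) Ω := by
    intro i
    apply DifferentiableOn.mul
    · exact (hQd.div_const _).pow _
    · fun_prop
  have hψb : ∀ z ∈ Ω, ∀ i, ‖ψ z i‖ ≤ 1 := by
    intro z hz i
    rw [hψ]
    simp only
    rw [norm_mul, norm_pow]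
    have h1 : ‖Q z / E'‖ ≤ 1 := by
      rw [norm_div, Complex.norm_real, Real.norm_of_nonneg (by linarith), div_le_one (by linarith)]
      have := hQb z hz
      linarith
    have h2 : ‖Complex.exp (z * i.2 - σ * |i.2|)‖ ≤ 1 := by
      rw [Complex.norm_exp, Real.exp_le_one_iff]
      have h3 : (z * i.2 - σ * |i.2| : ℂ).re = z.re * i.2 - σ * |i.2| := by
        simp
      rw [h3]
      have h4 : z.re < ρ := hz.1
      have h5 : -ρ < z.re := hz.2.1
      have h6 : |z.re| ≤ σ := abs_le.2 ⟨by linarith, by linarith⟩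
      have h7 : z.re * i.2 ≤ |z.re| * |i.2| := by
        rw [← abs_mul]; exact le_abs_self _
      have h8 : |z.re| * |i.2| ≤ σ * |i.2| := by gcongr
      linarith
    calc ‖Q z / E'‖ ^ i.1 * ‖Complex.exp (z * i.2 - σ * |i.2|)‖ ≤ 1 * 1 := by
          apply mul_le_mul (pow_le_one₀ (norm_nonneg _) h1) h2 (norm_nonneg _) zero_le_one
      _ = 1 := one_mul 1
  set A : Set ℂ := {z | z.re = 0 ∧ X'' < z.im} with hA
  have hAΩ : A ⊆ Ω := by
    rintro z ⟨h1, h2⟩
    refine ⟨?_, ?_, ?_⟩ <;> simp only [mem_ofPred_eq] <;> linarith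
  set z₀ : ℂ := ((X'' + 1 : ℝ) : ℂ) * Complex.I with hz₀
  have hz₀A : z₀ ∈ A := by
    constructor
    · rw [hz₀]; simp
    · rw [hz₀]; simp
  have hacc : ∃ᶠ z in 𝓝[≠] z₀, z ∈ A := by
    have h1 : Tendsto (fun t : ℝ => (t:ℂ) * Complex.I) (𝓝[≠] (X'' + 1)) (𝓝[≠] z₀) := by
      apply tendsto_nhdsWithin_of_tendsto_nhds_of_eventually_within
      · apply Tendsto.mono_left _ nhdsWithin_le_nhds
        have : Continuous (fun t : ℝ => (t:ℂ) * Complex.I) := by fun_prop
        exact this.tendsto (X'' + 1)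
      · filter_upwards [self_mem_nhdsWithin] with t ht
        intro h
        apply ht
        rw [hz₀] at h
        have h2 := mul_right_cancel₀ Complex.I_ne_zero h
        exact_mod_cast h2
    apply h1.frequently
    apply Eventually.frequently
    have h2 : ∀ᶠ t : ℝ in 𝓝[≠] (X'' + 1), X'' < t :=
      nhdsWithin_le_nhds (lt_mem_nhds (by linarith))
    filter_upwards [h2] with t ht
    constructor
    · simp
    · simpa using ht
  obtain ⟨h_app, h_cont⟩ := approx ψ Ω hΩo hΩc hψd hψb A hAΩ z₀ (hAΩ hz₀A) hacc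
  obtain ⟨a, haA, ha⟩ := h_app μ hμΩ (ε / 2) (by positivity)
  set Sa : ℝ := ∑ z ∈ a.support, ‖a z‖ with hSa
  have hSa0 : 0 ≤ Sa := Finset.sum_nonneg fun _ _ => norm_nonneg _
  set δ : ℝ := ε / (2 * (Sa + 1)) with hδ
  have hδ0 : 0 < δ := by positivity
  -- zeros
  have hzeros : ∀ z ∈ a.support, ∀ᶠ T' : ℝ in atTop, ∃ w : ℂ, (w ∈ Ω ∧ ∀ i, ‖ψ w i - ψ z i‖ ≤ δ) ∧
      1 / E' < ‖Q w‖ ∧ X'' < w.im ∧ Complex.exp (w * T') = Q w := by
    intro z hz
    have hzA := haA z hz
    have hzΩ := hAΩ hzA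
    have hQan : AnalyticAt ℂ Q z := (hQd.analyticOnNhd hΩo) z hzΩ
    have hPl : 1 / 2 ≤ ‖P z‖ := by
      have h1 := hPb z (by rw [hzA.1]; norm_num)
      rw [hzA.1, max_self, zero_mul, Real.exp_zero, mul_one] at h1
      have h2 : ‖(1:ℂ)‖ ≤ ‖P z - 1‖ + ‖P z‖ := by
        have := norm_sub_le (P z) (P z - 1)
        simp only [sub_sub_cancel] at this
        linarith
      rw [norm_one] at h2
      linarith
    have hηu : ‖z / (z - X')‖ ≤ 1 := by
      have h1 := hne z hzΩ
      rw [norm_div, div_le_one (norm_pos_iff.2 h1.2)]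
      apply (sq_le_sq₀ (norm_nonneg _) (norm_nonneg _)).1
      rw [Complex.sq_norm, Complex.sq_norm, Complex.normSq_apply, Complex.normSq_apply]
      simp only [Complex.sub_re, Complex.sub_im, Complex.ofReal_re, Complex.ofReal_im, hzA.1]
      nlinarith
    have hQl : 1 ≤ ‖Q z‖ := by
      rw [hQ]
      simp only
      rw [norm_div, norm_neg, norm_mul, Complex.norm_real, Real.norm_of_nonneg hc0.le,
        le_div_iff₀ (mul_pos hc0 (lt_of_lt_of_le (by norm_num) (hηl z hzΩ)))]
      have h2 : c * ‖z / (z - X')‖ ≤ 1 / 2 * 1 := by gcongr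
      linarith
    have hQ0 : Q z ≠ 0 := by
      intro h; rw [h, norm_zero] at hQl; linarith
    have e1 := h_cont z hzΩ δ hδ0
    have e2 : ∀ᶠ w in 𝓝 z, 1 / E' < ‖Q w‖ := by
      apply hQan.continuousAt.norm.eventually (lt_mem_nhds _)
      have : 1 / E' < 1 := by rw [div_lt_one (by linarith)]; exact hE'
      linarith
    have e3 : ∀ᶠ w : ℂ in 𝓝 z, X'' < w.im :=
      Complex.continuous_im.continuousAt.eventually (lt_mem_nhds hzA.2)
    obtain ⟨r, hr0, hr⟩ := Metric.nhds_basis_closedBall.eventually_iff.1 (e1.and (e2.and e3))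
    obtain ⟨T₀, hT₀⟩ := zero_near Q z hzA.1 hQan hQ0 r hr0
    filter_upwards [eventually_ge_atTop T₀] with T' hT'
    obtain ⟨w, hw1, hw2⟩ := hT₀ T' hT'
    have := hr (mem_closedBall_iff_norm.2 hw1)
    exact ⟨w, this.1, this.2.1, this.2.2, hw2⟩
  have hall := (Filter.eventually_all_finset a.support).2 hzeros
  have hsmall : ∀ᶠ T' : ℝ in atTop, Real.log E' / T' ≤ s - σ := by
    have h1 : Tendsto (fun T' : ℝ => Real.log E' / T') atTop (𝓝 0) :=
      tendsto_const_nhds.div_atTop tendsto_id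
    exact (h1.eventually (gt_mem_nhds (sub_pos.2 hσs))).mono fun _ h => le_of_lt h
  filter_upwards [hall, hsmall, eventually_gt_atTop 0] with T' hT' hT's hT'0
  have hch : ∀ z : ℂ, ∃ w : ℂ, z ∈ a.support → ((w ∈ Ω ∧ ∀ i, ‖ψ w i - ψ z i‖ ≤ δ) ∧
      1 / E' < ‖Q w‖ ∧ X'' < w.im ∧ Complex.exp (w * T') = Q w) := by
    intro z
    by_cases hz : z ∈ a.support
    · obtain ⟨w, hw⟩ := hT' z hz
      exact ⟨w, fun _ => hw⟩
    · exact ⟨0, fun h => absurd h hz⟩
  choose w hw using hch
  refine ⟨∑ z ∈ a.support, a z • ef (w z), ?_, ?_⟩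
  · apply Submodule.sum_mem
    intro z hz
    apply Submodule.smul_mem
    apply Submodule.subset_span
    refine ⟨w z, ?_, rfl⟩
    obtain ⟨⟨h1, h2⟩, h3, h4, h5⟩ := hw z hz
    refine ⟨?_, ?_, h4⟩
    · unfold nP
      rw [h5, hQ]
      simp only
      rw [mul_div_cancel₀ _ (hden _ h1)]
      ring
    · have h6 : ‖Q (w z)‖ = Real.exp ((w z).re * T') := by
        rw [← h5, Complex.norm_exp]
        simp
      have h7 := hQb _ h1
      rw [h6] at h3 h7
      have h8 : Real.exp ((w z).re * T') < E' := by linarith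
      have h9 : (w z).re * T' < Real.log E' := by
        rw [← Real.exp_lt_exp, Real.exp_log (by linarith)]; exact h8
      have h10 : - Real.log E' < (w z).re * T' := by
        rw [← Real.exp_lt_exp, Real.exp_neg, Real.exp_log (by linarith)]
        rw [← one_div]; exact h3
      rw [abs_lt, ← neg_div]
      constructor
      · rw [div_lt_iff₀ hT'0]; exact h10
      · rw [lt_div_iff₀ hT'0]; exact h9
  · intro τ hτ
    have hN0 : 0 ≤ round (τ / T') := by
      rw [round_eq]
      apply Int.floor_nonneg.2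
      positivity
    obtain ⟨N, hN⟩ := Int.eq_ofNat_of_zero_le hN0
    set u : ℝ := τ - T' * N with hu
    have hddu : dd T' τ = |u| := by
      unfold dd
      rw [hN, hu]
      simp
    set K : ℝ := E' ^ N * Real.exp (σ * |u|) with hK
    have hK0 : 0 < K := by positivity
    have hexp : ∀ z : ℂ, Complex.exp (z * T') = Q z → ef z τ = ψ z (N, u) * K := by
      intro z hz
      unfold ef
      have h1 : z * τ = N * (z * T') + z * u := by
        rw [hu]; push_cast; ring
      have h2 : Q z ^ N = (Q z / E') ^ N * (E':ℂ) ^ N := by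
        rw [← mul_pow, div_mul_cancel₀ _ hE'c]
      have h3 : Complex.exp (z * u) = Complex.exp (z * u - σ * |u|) * Complex.exp (σ * |u|) := by
        rw [← Complex.exp_add]; congr 1; ring
      rw [h1, Complex.exp_add, Complex.exp_nat_mul, hz, h2, h3]
      show _ = ((Q z / E') ^ N * Complex.exp (z * u - σ * |u|)) * K
      rw [hK]
      push_cast
      ring
    have hμv : (if τ < T' / 2 then ef μ τ else 0) = ψ μ (N, u) * K := by
      have hQμ : Q μ = 0 := by rw [hQ]; simp [hμP]
      split_ifs with hif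
      · have hN1 : N = 0 := by
          have h1 : round (τ / T') = 0 := by
            rw [round_eq, Int.floor_eq_zero_iff]
            constructor
            · positivity
            · have : τ / T' < 1 / 2 := by rw [div_lt_iff₀ hT'0]; linarith
              linarith
          rw [h1] at hN
          exact_mod_cast hN.symm
        have hu2 : u = τ := by rw [hu, hN1]; simp
        rw [hψ, hK, hN1, hu2]
        simp only [pow_zero, one_mul]
        unfold ef
        rw [Complex.exp_sub]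
        push_cast
        field_simp
      · have hN1 : N ≠ 0 := by
          intro h
          rw [h] at hN
          have h1 : ⌊τ / T' + 1 / 2⌋ = 0 := by rw [← round_eq, hN]; rfl
          rw [Int.floor_eq_zero_iff] at h1
          have h2 : τ / T' < 1 / 2 := by linarith [h1.2]
          rw [div_lt_iff₀ hT'0] at h2
          apply hif
          linarith
        rw [hψ]
        simp [hQμ, hN1]
    have hsum : (∑ z ∈ a.support, a z • ef (w z)) τ = (∑ z ∈ a.support, a z * ψ (w z) (N, u)) * K := by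
      rw [Finset.sum_apply, Finset.sum_mul]
      apply Finset.sum_congr rfl
      intro z hz
      rw [Pi.smul_apply, smul_eq_mul, hexp (w z) (hw z hz).2.2.2]
      exact (mul_assoc _ _ _).symm
    rw [hsum, hμv, ← sub_mul, norm_mul, Complex.norm_real, Real.norm_of_nonneg hK0.le]
    have hb1 : ‖∑ z ∈ a.support, a z * ψ (w z) (N, u) - ψ μ (N, u)‖ ≤ ε := by
      have h1 : ∑ z ∈ a.support, a z * ψ (w z) (N, u) - ψ μ (N, u) =
          ∑ z ∈ a.support, a z * (ψ (w z) (N, u) - ψ z (N, u)) -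
            (ψ μ (N, u) - ∑ z ∈ a.support, a z * ψ z (N, u)) := by
        simp only [mul_sub, Finset.sum_sub_distrib]
        ring
      rw [h1]
      refine (norm_sub_le _ _).trans ?_
      have h2 : ‖∑ z ∈ a.support, a z * (ψ (w z) (N, u) - ψ z (N, u))‖ ≤ Sa * δ := by
        refine (norm_sum_le _ _).trans ?_
        rw [hSa, Finset.sum_mul]
        apply Finset.sum_le_sum
        intro z hz
        rw [norm_mul]
        gcongr
        exact (hw z hz).1.2 _
      have h3 : Sa * δ ≤ ε / 2 := by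
        rw [hδ, mul_div_assoc', div_le_div_iff₀ (by positivity) (by norm_num)]
        nlinarith
      have := ha (N, u)
      linarith
    have hb2 : K ≤ Real.exp (s * dd T' τ + Real.log E' / T' * τ) := by
      have h1 : K = Real.exp (N * Real.log E' + σ * |u|) := by
        rw [hK, Real.exp_add, Real.exp_nat_mul, Real.exp_log (by linarith)]
      rw [h1, hddu]
      apply Real.exp_le_exp.2
      have h2 : τ = T' * N + u := by rw [hu]; ring
      have h3 : Real.log E' / T' * τ = N * Real.log E' + Real.log E' / T' * u := by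
        nth_rw 1 [h2]
        field_simp
      rw [h3]
      have h4 : 0 ≤ Real.log E' / T' := by positivity
      have h5 : - (Real.log E' / T' * |u|) ≤ Real.log E' / T' * u := by
        have h5' := mul_le_mul_of_nonneg_left (neg_abs_le u) h4
        rwa [mul_neg] at h5'
      have h6 : Real.log E' / T' * |u| ≤ (s - σ) * |u| := by gcongr
      have h7 : (s - σ) * |u| = s * |u| - σ * |u| := by ring
      linarith
    calc ‖∑ z ∈ a.support, a z * ψ (w z) (N, u) - ψ μ (N, u)‖ * K ≤ ε * K := by gcongr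
      _ ≤ _ := by gcongr

theorem step2 (P : ℂ → ℂ) (T E c E' X' X'' : ℝ) (hT : 0 < T) (hE : 1 < E) (hc0 : 0 < c)
    (hc1 : c ≤ 1 / 2) (hE' : 1 < E') (hEE : 6 * E ≤ c * E') (hX : 2 ≤ X') (hXX : X' ≤ X'')
    (hP : DifferentiableOn ℂ P {z | z.re < 1})
    (hPb : ∀ z : ℂ, z.re < 1 → ‖P z - 1‖ ≤ (1 / 2) * Real.exp (max z.re 0 * T))
    (hs : Real.log E / T ≤ 1)
    (G : ℝ → ℂ) (hG : G ∈ VV (MM P (Real.log E / T) X')) :
    ∀ ε : ℝ, 0 < ε →
    ∀ᶠ T' : ℝ in atTop, ∃ G' ∈ VV (MM (nP P c X' T') (Real.log E' / T') X''), ∀ τ : ℝ, 0 ≤ τ →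
      ‖G' τ - (if τ < T' / 2 then G τ else 0)‖ ≤
        ε * Real.exp (Real.log E / T * dd T' τ + Real.log E' / T' * τ) := by
  induction hG using Submodule.span_induction with
  | mem x h =>
    obtain ⟨μ, hμ, rfl⟩ := h
    intro ε hε
    exact step1 P T E c E' X' X'' hT hE hc0 hc1 hE' hEE hX hXX hP hPb hs μ hμ ε hε
  | zero =>
    intro ε hε
    filter_upwards with T'
    refine ⟨0, Submodule.zero_mem _, ?_⟩
    intro τ _
    simp only [Pi.zero_apply, ite_self, sub_zero, norm_zero]
    positivity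
  | add x y _ _ hx hy =>
    intro ε hε
    filter_upwards [hx (ε / 2) (by positivity), hy (ε / 2) (by positivity)] with T' h1 h2
    obtain ⟨G1, hG1, h1⟩ := h1
    obtain ⟨G2, hG2, h2⟩ := h2
    refine ⟨G1 + G2, Submodule.add_mem _ hG1 hG2, ?_⟩
    intro τ hτ
    have e1 := h1 τ hτ
    have e2 := h2 τ hτ
    have e3 : (G1 + G2) τ - (if τ < T' / 2 then (x + y) τ else 0) =
        (G1 τ - (if τ < T' / 2 then x τ else 0)) + (G2 τ - (if τ < T' / 2 then y τ else 0)) := by
      split_ifs <;> simp only [Pi.add_apply] <;> ring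
    rw [e3]
    refine (norm_add_le _ _).trans ?_
    linarith
  | smul b x _ hx =>
    intro ε hε
    filter_upwards [hx (ε / (‖b‖ + 1)) (by positivity)] with T' h1
    obtain ⟨G1, hG1, h1⟩ := h1
    refine ⟨b • G1, Submodule.smul_mem _ _ hG1, ?_⟩
    intro τ hτ
    have e1 := h1 τ hτ
    have e3 : (b • G1) τ - (if τ < T' / 2 then (b • x) τ else 0) =
        b * (G1 τ - (if τ < T' / 2 then x τ else 0)) := by
      split_ifs <;> simp only [Pi.smul_apply, smul_eq_mul] <;> ring
    rw [e3, norm_mul]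
    have e4 : ‖b‖ * (ε / (‖b‖ + 1)) ≤ ε := by
      rw [mul_div_assoc', div_le_iff₀ (by positivity)]
      nlinarith [norm_nonneg b]
    calc ‖b‖ * ‖G1 τ - (if τ < T' / 2 then x τ else 0)‖ ≤ ‖b‖ * (ε / (‖b‖ + 1) *
          Real.exp (Real.log E / T * dd T' τ + Real.log E' / T' * τ)) := by gcongr
      _ = (‖b‖ * (ε / (‖b‖ + 1))) * Real.exp (Real.log E / T * dd T' τ + Real.log E' / T' * τ) := by
          ring
      _ ≤ _ := by gcongr

end Pool.Agent.U312.RT
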