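import Pool.Agent.U312.RT.Seq

/-!
The weight.
-/

set_option autoImplicit false
set_option linter.unusedSectionVars false

open Filter Topology Metric Set

namespace Pool.Agent.U312.RT

lemma dd_le_abs (T τ : ℝ) (hT : 0 < T) : dd T τ ≤ |τ| := by
  unfold dd
  have h := round_le (τ / T) 0
  have h1 : τ - T * round (τ / T) = T * (τ / T - round (τ / T)) := by field_simp
  have h2 : τ = T * (τ / T - (0:ℤ)) := by field_simp; simp
  rw [h1, abs_mul]
  nth_rw 3 [h2]
  rw [abs_mul]
  gcongr

lemma dd_le_half (T τ : ℝ) (hT : 0 < T) : dd T τ ≤ T / 2 := by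
  unfold dd
  have h := abs_sub_round (τ / T)
  have h1 : τ - T * round (τ / T) = T * (τ / T - round (τ / T)) := by field_simp
  rw [h1, abs_mul, abs_of_pos hT]
  nlinarith

lemma dd_add (T τ τ' : ℝ) (hT : 0 < T) : dd T (τ + τ') ≤ dd T τ + dd T τ' := by
  unfold dd
  have h := round_le ((τ + τ') / T) (round (τ / T) + round (τ' / T))
  have h1 : ∀ x : ℝ, ∀ n : ℤ, x - T * n = T * (x / T - n) := by intro x n; field_simp
  rw [h1 (τ + τ'), abs_mul]
  calc |T| * |(τ + τ') / T - round ((τ + τ') / T)|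
      ≤ |T| * |(τ + τ') / T - ((round (τ / T) + round (τ' / T) : ℤ) : ℝ)| := by gcongr
    _ = |(τ - T * round (τ / T)) + (τ' - T * round (τ' / T))| := by
        rw [← abs_mul]
        congr 1
        push_cast
        field_simp
        ring
    _ ≤ _ := abs_add_le _ _

lemma dd_mul (T : ℝ) (hT : 0 < T) (n : ℕ) : dd T (n * T) = 0 := by
  unfold dd
  rw [mul_div_cancel_right₀ _ hT.ne']
  simp [mul_comm]

lemma dd_meas (T : ℝ) : Measurable (dd T) := by
  unfold dd
  simp only [round_eq]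
  have h1 : Measurable (fun τ : ℝ => ((⌊τ / T + 1 / 2⌋ : ℤ) : ℝ)) := by
    have h2 : Measurable (fun τ : ℝ => ⌊τ / T + 1 / 2⌋) := by
      apply Measurable.floor
      fun_prop
    exact (measurable_from_top (f := fun n : ℤ => (n:ℝ))).comp h2
  fun_prop

section

variable (S : ℕ → St) (hinv : ∀ k, Inv k (S k)) (hrel : ∀ k, Rel k (S k) (S (k + 1)))

/-- slopes -/
noncomputable def sl (k : ℕ) : ℝ := (S k).s k

/-- lattice constants -/
noncomputable def tt (k : ℕ) : ℝ := (S k).T

/-- logarithm of the weight -/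
noncomputable def pp (τ : ℝ) : ℝ := ∑' k, sl S k * dd (tt S (k + 1)) τ

include hinv in
lemma tt_one (k : ℕ) : 1 ≤ tt S k := (hinv k).T1

include hinv in
lemma tt_pos (k : ℕ) : 0 < tt S k := by linarith [tt_one S hinv k]

include hinv in
lemma sl_pos (k : ℕ) : 0 < sl S k := div_pos (Real.log_pos (EE_one k)) (tt_pos S hinv k)

include hinv in
lemma sl_le (k : ℕ) : sl S k ≤ (1 / 8) * (1 / 2) ^ k := (hinv k).hs

include hinv in
lemma sl_mul (k : ℕ) : sl S k * tt S k = Real.log (EE k) := by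
  unfold sl St.s
  exact div_mul_cancel₀ _ (tt_pos S hinv k).ne'

lemma geo_sum : HasSum (fun k : ℕ => (1 / 8 : ℝ) * (1 / 2) ^ k) (1 / 4) := by
  have := (hasSum_geometric_of_lt_one (r := (1 / 2 : ℝ)) (by norm_num) (by norm_num)).mul_left (1 / 8)
  rw [show (1 / 4 : ℝ) = 1 / 8 * (1 - 1 / 2)⁻¹ by norm_num]
  exact this

include hinv in
lemma sl_summable : Summable (sl S) :=
  Summable.of_nonneg_of_le (fun k => (sl_pos S hinv k).le) (sl_le S hinv) geo_sum.summable

include hinv in
lemma sl_tsum_le : ∑' k, sl S k ≤ 1 / 4 := by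
  rw [← geo_sum.tsum_eq]
  exact (sl_summable S hinv).tsum_le_tsum (sl_le S hinv) geo_sum.summable

include hinv in
lemma sl_sum_le (n : ℕ) : ∑ k ∈ Finset.range n, sl S k ≤ 1 / 4 :=
  ((sl_summable S hinv).sum_le_tsum _ (fun k _ => (sl_pos S hinv k).le)).trans
    (sl_tsum_le S hinv)

include hinv in
lemma term_nonneg (k : ℕ) (τ : ℝ) : 0 ≤ sl S k * dd (tt S (k + 1)) τ :=
  mul_nonneg (sl_pos S hinv k).le (dd_nonneg _ _)

include hinv in
lemma term_le (k : ℕ) (τ : ℝ) : sl S k * dd (tt S (k + 1)) τ ≤ sl S k * |τ| :=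
  mul_le_mul_of_nonneg_left (dd_le_abs _ _ (tt_pos S hinv _)) (sl_pos S hinv k).le

include hinv in
lemma pp_summable (τ : ℝ) : Summable (fun k => sl S k * dd (tt S (k + 1)) τ) :=
  Summable.of_nonneg_of_le (fun k => term_nonneg S hinv k τ) (fun k => term_le S hinv k τ)
    ((sl_summable S hinv).mul_right _)

include hinv in
lemma pp_nonneg (τ : ℝ) : 0 ≤ pp S τ := tsum_nonneg fun k => term_nonneg S hinv k τ

include hinv in
lemma pp_le (τ : ℝ) : pp S τ ≤ |τ| / 4 := by
  unfold pp
  calc ∑' k, sl S k * dd (tt S (k + 1)) τ ≤ ∑' k, sl S k * |τ| :=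
        (pp_summable S hinv τ).tsum_le_tsum (fun k => term_le S hinv k τ)
          ((sl_summable S hinv).mul_right _)
    _ = (∑' k, sl S k) * |τ| := tsum_mul_right
    _ ≤ 1 / 4 * |τ| := by gcongr; exact sl_tsum_le S hinv
    _ = |τ| / 4 := by ring

include hinv in
lemma pp_add (τ τ' : ℝ) : pp S (τ + τ') ≤ pp S τ + pp S τ' := by
  unfold pp
  rw [← (pp_summable S hinv τ).tsum_add (pp_summable S hinv τ')]
  apply (pp_summable S hinv _).tsum_le_tsum
  · intro k
    rw [← mul_add]
    exact mul_le_mul_of_nonneg_left (dd_add _ _ _ (tt_pos S hinv _)) (sl_pos S hinv k).le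
  · exact (pp_summable S hinv τ).add (pp_summable S hinv τ')

include hinv in
lemma pp_meas : Measurable (pp S) := by
  have h : ∀ n : ℕ, Measurable (fun τ => ∑ k ∈ Finset.range n, sl S k * dd (tt S (k + 1)) τ) := by
    intro n
    apply Finset.measurable_sum
    intro k _
    exact (dd_meas _).const_mul _
  apply measurable_of_tendsto_metrizable h
  rw [tendsto_pi_nhds]
  intro τ
  exact (pp_summable S hinv τ).hasSum.tendsto_sum_nat

include hinv in
lemma pp_lim (l : Filter ℝ) (hl : Tendsto (fun τ : ℝ => |τ|) l atTop) :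
    Tendsto (fun τ => pp S τ / τ) l (𝓝 0) := by
  have h1 : ∀ τ, pp S τ / τ = ∑' k, sl S k * dd (tt S (k + 1)) τ / τ := by
    intro τ
    unfold pp
    rw [tsum_div_const]
  simp only [h1]
  have h2 : (0:ℝ) = ∑' _ : ℕ, (0:ℝ) := by simp
  rw [h2]
  apply tendsto_tsum_of_dominated_convergence (bound := sl S) (sl_summable S hinv)
  · intro k
    have h3 : Tendsto (fun τ : ℝ => sl S k * (tt S (k + 1) / 2) / |τ|) l (𝓝 0) :=
      hl.const_div_atTop _
    apply squeeze_zero_norm' _ h3
    filter_upwards with τ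
    rw [norm_div, Real.norm_eq_abs, Real.norm_eq_abs, abs_of_nonneg (term_nonneg S hinv k τ)]
    have := sl_pos S hinv k
    have := dd_le_half _ τ (tt_pos S hinv (k + 1))
    gcongr
  · filter_upwards with τ
    intro k
    rw [norm_div, Real.norm_eq_abs, Real.norm_eq_abs, abs_of_nonneg (term_nonneg S hinv k τ)]
    rcases eq_or_ne τ 0 with h | h
    · rw [h]; simp [(sl_pos S hinv k).le]
    · rw [div_le_iff₀ (abs_pos.2 h)]
      exact term_le S hinv k τ

include hinv hrel in
lemma tt_pow (j i : ℕ) : 4 ^ i * tt S j ≤ tt S (j + i) := by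
  induction i with
  | zero => simp
  | succ i ih =>
    have h := (hrel (j + i)).T4
    have h2 : 4 * tt S (j + i) ≤ tt S (j + (i + 1)) := h
    rw [pow_succ]
    linarith

include hinv hrel in
lemma tt_mono (j i : ℕ) (h : j ≤ i) : tt S j ≤ tt S i := by
  obtain ⟨n, rfl⟩ := Nat.exists_eq_add_of_le h
  have h1 := tt_pow S hinv hrel j n
  have h2 : (1:ℝ) ≤ 4 ^ n := one_le_pow₀ (by norm_num)
  have h3 := tt_pos S hinv j
  nlinarith

include hinv hrel in
lemma tt_large (n : ℕ) : (4:ℝ) ^ n ≤ tt S n := by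
  have h1 := tt_pow S hinv hrel 0 n
  rw [zero_add] at h1
  have h2 := tt_one S hinv 0
  have h3 : (0:ℝ) < 4 ^ n := by positivity
  nlinarith

include hinv hrel in
lemma tt_dvd (j i : ℕ) (h : j ≤ i) : ∃ m : ℕ, tt S i = m * tt S j := by
  obtain ⟨n, rfl⟩ := Nat.exists_eq_add_of_le h
  clear h
  induction n with
  | zero => exact ⟨1, by simp⟩
  | succ n ih =>
    obtain ⟨m, hm⟩ := ih
    obtain ⟨m', hm'⟩ := (hrel (j + n)).m
    refine ⟨m' * m, ?_⟩
    have h2 : tt S (j + (n + 1)) = m' * tt S (j + n) := hm'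
    rw [h2, hm]
    push_cast
    ring

include hinv hrel in
lemma pp_tt (j : ℕ) : pp S (tt S j) ≤ Real.log (EE j) + 1 / 4 := by
  unfold pp
  rw [← (pp_summable S hinv (tt S j)).sum_add_tsum_nat_add (j + 1)]
  apply add_le_add
  · rw [Finset.sum_range_succ]
    have h0 : ∑ k ∈ Finset.range j, sl S k * dd (tt S (k + 1)) (tt S j) = 0 := by
      apply Finset.sum_eq_zero
      intro k hk
      obtain ⟨m, hm⟩ := tt_dvd S hinv hrel (k + 1) j (Finset.mem_range.1 hk)
      rw [hm, dd_mul _ (tt_pos S hinv _), mul_zero]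
    rw [h0, zero_add]
    have h1 := term_le S hinv j (tt S j)
    rwa [abs_of_pos (tt_pos S hinv j), sl_mul S hinv j] at h1
  · have hg : HasSum (fun n : ℕ => (1 / 8 : ℝ) * (1 / 4) ^ n) (1 / 8 * (1 - 1 / 4)⁻¹) :=
      (hasSum_geometric_of_lt_one (by norm_num) (by norm_num)).mul_left _
    have hle : ∑' n, sl S (n + (j + 1)) * dd (tt S (n + (j + 1) + 1)) (tt S j) ≤
        ∑' n : ℕ, (1 / 8 : ℝ) * (1 / 4) ^ n := by
      apply Summable.tsum_le_tsum _ _ hg.summable
      · intro n
        refine (term_le S hinv _ (tt S j)).trans ?_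
        rw [abs_of_pos (tt_pos S hinv j)]
        have h1 : sl S (j + n + 1) * tt S (j + n) ≤ 1 / 8 := (hrel (j + n)).s1
        have h2 := tt_pow S hinv hrel j n
        have h3 : sl S (j + n + 1) * (4 ^ n * tt S j) ≤ 1 / 8 := by
          have := sl_pos S hinv (j + n + 1)
          nlinarith
        have h4 : n + (j + 1) = j + n + 1 := by ring
        rw [h4, div_pow, one_pow]
        rw [mul_one_div, le_div_iff₀ (by positivity)]
        linarith
      · exact (summable_nat_add_iff (f := fun k => sl S k * dd (tt S (k + 1)) (tt S j)) (j + 1)).2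
          (pp_summable S hinv (tt S j))
    refine hle.trans ?_
    rw [hg.tsum_eq]
    norm_num

end

end Pool.Agent.U312.RT
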